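import Pool.Agent.H44.TE.Def

set_option autoImplicit false

/-!
# [H44 TE Bod] The sets are ellipsoids (MP_ce02af_co)
-/

namespace Pool.Agent.H44.TE

open Pool.Agent.H44.TB

variable {n M : ℕ}

/-- The solid ellipsoid with centre `c` and shape `T`. -/
def ellipsoid (T : E3 ≃ₗ[ℝ] E3) (c : E3) : Set E3 := {x | ‖T (x - c)‖ ≤ 1}

/-- Three independent affine forms give an ellipsoid (`v i` independent linear forms, here as a matrix
`A` with nonzero determinant): `Σ (A_i · x - b_i)² ≤ 1`. -/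
theorem ell_of (A : Matrix (Fin 3) (Fin 3) ℝ) (hA : A.det ≠ 0) (b : Fin 3 → ℝ) :
    ∃ (T : E3 ≃ₗ[ℝ] E3) (c : E3), {x : E3 | ∑ i, (∑ j, A i j * x j - b i) ^ 2 ≤ 1} =
      ellipsoid T c := by
  have happ : ∀ (x : E3) (i : Fin 3), (Matrix.toEuclideanLin A x) i = ∑ j, A i j * x j := by
    intro x i
    rfl
  have hinj : Function.Injective (Matrix.toEuclideanLin A : E3 →ₗ[ℝ] E3) := by
    rw [injective_iff_map_eq_zero]
    intro x hx
    have h1 : A.mulVec (fun j => x j) = 0 := by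
      funext i
      have h2 := happ x i
      rw [hx] at h2
      exact h2.symm
    have h3 := Matrix.eq_zero_of_mulVec_eq_zero hA h1
    ext i
    exact congrFun h3 i
  obtain ⟨T, hT⟩ : ∃ T : E3 ≃ₗ[ℝ] E3, ∀ x, T x = Matrix.toEuclideanLin A x :=
    ⟨LinearEquiv.ofInjectiveEndo _ hinj, fun x => rfl⟩
  refine ⟨T, T.symm (WithLp.toLp 2 b), ?_⟩
  ext x
  have h1 : ∀ i, (T (x - T.symm (WithLp.toLp 2 b))) i = ∑ j, A i j * x j - b i := by
    intro i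
    rw [map_sub, LinearEquiv.apply_symm_apply, hT]
    rfl
  show ∑ i, (∑ j, A i j * x j - b i) ^ 2 ≤ 1 ↔ ‖T (x - T.symm (WithLp.toLp 2 b))‖ ≤ 1
  have h2 : ‖T (x - T.symm (WithLp.toLp 2 b))‖ ^ 2 = ∑ i, (∑ j, A i j * x j - b i) ^ 2 := by
    rw [EuclideanSpace.norm_sq_eq]
    refine Finset.sum_congr rfl fun i _ => ?_
    rw [h1 i, Real.norm_eq_abs, sq_abs]
  rw [← h2]
  exact sq_le_one_iff₀ (norm_nonneg _)

/-- The same with positive weights. -/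
theorem ell_of_w (A : Matrix (Fin 3) (Fin 3) ℝ) (hA : A.det ≠ 0) (b w : Fin 3 → ℝ)
    (hw : ∀ i, 0 < w i) {S : ℝ} (hS : 0 < S) :
    ∃ (T : E3 ≃ₗ[ℝ] E3) (c : E3), {x : E3 | ∑ i, w i * (∑ j, A i j * x j - b i) ^ 2 ≤ S} =
      ellipsoid T c := by
  have hv : ∀ i, 0 < Real.sqrt (w i / S) := fun i => Real.sqrt_pos.2 (div_pos (hw i) hS)
  have hdet : (Matrix.of fun i j => Real.sqrt (w i / S) * A i j).det ≠ 0 := by
    rw [Matrix.det_mul_column]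
    exact mul_ne_zero (Finset.prod_ne_zero_iff.2 fun i _ => (hv i).ne') hA
  obtain ⟨T, c, h⟩ := ell_of _ hdet fun i => Real.sqrt (w i / S) * b i
  refine ⟨T, c, ?_⟩
  rw [← h]
  ext x
  show ∑ i, w i * (∑ j, A i j * x j - b i) ^ 2 ≤ S ↔
    ∑ i, (∑ j, Real.sqrt (w i / S) * A i j * x j - Real.sqrt (w i / S) * b i) ^ 2 ≤ 1
  have h1 : ∀ i, (∑ j, Real.sqrt (w i / S) * A i j * x j - Real.sqrt (w i / S) * b i) ^ 2 =
      w i * (∑ j, A i j * x j - b i) ^ 2 / S := by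
    intro i
    have h2 : ∑ j, Real.sqrt (w i / S) * A i j * x j - Real.sqrt (w i / S) * b i =
        Real.sqrt (w i / S) * (∑ j, A i j * x j - b i) := by
      rw [mul_sub, Finset.mul_sum]
      congr 1
      exact Finset.sum_congr rfl fun j _ => by ring
    rw [h2, mul_pow, Real.sq_sqrt (div_pos (hw i) hS).le]
    ring
  rw [Finset.sum_congr rfl fun i _ => h1 i, ← Finset.sum_div, div_le_one hS]

/-- `EL` as a sum of squares -/
private theorem EL_iff {Y K g u c : ℝ} (hY : 0 < Y) (hK : Y < K) :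
    EL Y K g u c ↔ Y * (u - 1 / 2) ^ 2 +
      (K - Y) / Y ^ 2 * (g - Y * u - 1 / (2 * ((K - Y) / Y ^ 2))) ^ 2 + c ≤
        Y / 4 + 1 / (4 * ((K - Y) / Y ^ 2)) := by
  have hl : 0 < (K - Y) / Y ^ 2 := div_pos (by linarith) (by positivity)
  unfold EL
  obtain ⟨m, hm⟩ : ∃ m, m = (K - Y) / Y ^ 2 := ⟨_, rfl⟩
  rw [← hm] at hl ⊢
  have e : Y * (u - 1 / 2) ^ 2 + m * (g - Y * u - 1 / (2 * m)) ^ 2 + c - (Y / 4 + 1 / (4 * m)) =
      Y * u ^ 2 + m * (g - Y * u) ^ 2 + c - g := by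
    field_simp
    ring
  constructor <;> intro h <;> linarith

/-- All sets of the family are ellipsoids. For `sA`, `sB`: with `q = g - Y u` the condition is
`Y (u - 1/2)² + lam (q - 1 / (2 lam))² + w² ≤ Y / 4 + 1 / (4 lam)`, `lam = (K - Y) / Y² > 0`; use square
roots of the coefficients. -/
theorem efam_ellipsoid (hn : 2 ≤ n) (i : Idx n M) : ∃ (T : E3 ≃ₗ[ℝ] E3) (c : E3),
    efam n M i = ellipsoid T c := by
  have hR := eR_pos (n := n)
  have hE := eE_pos (n := n)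
  have hδ := eδ_pos (n := n)
  have ha := ea_pos (n := n)
  have hG := eG_pos (n := n)
  rcases i with (j | k) | (l | m)
  · have hY := eYA_pos (n := n) (j : ℕ)
    have hK := eYA_le (n := n) (j := (j : ℕ)) j.2.le
    have hYK : eYA n (j : ℕ) < eK n := by linarith
    have hl : 0 < (eK n - eYA n (j : ℕ)) / eYA n (j : ℕ) ^ 2 :=
      div_pos (by linarith) (by positivity)
    obtain ⟨Y, hYd⟩ : ∃ Y, Y = eYA n (j : ℕ) := ⟨_, rfl⟩
    obtain ⟨s, hs⟩ : ∃ s, s = (eK n - eYA n (j : ℕ)) / eYA n (j : ℕ) ^ 2 := ⟨_, rfl⟩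
    have hdet : (!![0, 0, -(1 / eR n); 1 / eR n, 0, (Y - eG n * ((j : ℕ) + 1)) / eR n;
        0, 1, 0] : Matrix (Fin 3) (Fin 3) ℝ).det ≠ 0 := by
      rw [Matrix.det_fin_three]
      have : (1 / eR n) ≠ 0 := by positivity
      simp [hR.ne']
    obtain ⟨T, c, h⟩ := ell_of_w _ hdet ![-(1 / 2), Y + 1 / (2 * s), 0]
      ![Y, s, eδ n / (16 * eE n ^ 2)] (by
        intro i
        fin_cases i
        · exact hYd ▸ hY
        · exact hs ▸ hl
        · show 0 < eδ n / (16 * eE n ^ 2)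
          positivity) (S := Y / 4 + 1 / (4 * s)) (by rw [hYd, hs]; positivity)
    refine ⟨T, c, ?_⟩
    rw [← h]
    ext x
    have e : Y * (1 - x 2 / eR n - 1 / 2) ^ 2 +
        s * (x 0 / eR n - eG n * ((j : ℕ) + 1) * (x 2 / eR n) - Y * (1 - x 2 / eR n) -
          1 / (2 * s)) ^ 2 + eδ n * (x 1) ^ 2 / (16 * eE n ^ 2) =
        ∑ i, (![Y, s, eδ n / (16 * eE n ^ 2)] : Fin 3 → ℝ) i *
          (∑ k, (!![0, 0, -(1 / eR n); 1 / eR n, 0, (Y - eG n * ((j : ℕ) + 1)) / eR n;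
            0, 1, 0] : Matrix (Fin 3) (Fin 3) ℝ) i k * x k -
            (![-(1 / 2), Y + 1 / (2 * s), 0] : Fin 3 → ℝ) i) ^ 2 := by
      simp only [Fin.sum_univ_three, Matrix.of_apply, Matrix.cons_val]
      ring
    show EL _ _ _ _ _ ↔ _
    rw [EL_iff hY hYK, ← hs, ← hYd, e]
    exact Iff.rfl
  · have hY := eYB_pos (n := n) (k : ℕ)
    have hK := eYB_le' (n := n) (k := (k : ℕ)) k.2.le
    have hYK : eYB n (k : ℕ) < eK n := by linarith
    have hl : 0 < (eK n - eYB n (k : ℕ)) / eYB n (k : ℕ) ^ 2 :=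
      div_pos (by linarith) (by positivity)
    obtain ⟨Y, hYd⟩ : ∃ Y, Y = eYB n (k : ℕ) := ⟨_, rfl⟩
    obtain ⟨s, hs⟩ : ∃ s, s = (eK n - eYB n (k : ℕ)) / eYB n (k : ℕ) ^ 2 := ⟨_, rfl⟩
    have hdet : (!![0, 0, -1; 0, 1, Y - eG n * ((k : ℕ) + 1);
        1, 0, 0] : Matrix (Fin 3) (Fin 3) ℝ).det ≠ 0 := by
      rw [Matrix.det_fin_three]
      simp
    obtain ⟨T, c, h⟩ := ell_of_w _ hdet ![-(1 / 2), Y + 1 / (2 * s), 0]
      ![Y, s, eδ n / (16 * eR n ^ 2)] (by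
        intro i
        fin_cases i
        · exact hYd ▸ hY
        · exact hs ▸ hl
        · show 0 < eδ n / (16 * eR n ^ 2)
          positivity) (S := Y / 4 + 1 / (4 * s)) (by rw [hYd, hs]; positivity)
    refine ⟨T, c, ?_⟩
    rw [← h]
    ext x
    have e : Y * (1 - x 2 - 1 / 2) ^ 2 +
        s * (x 1 - eG n * ((k : ℕ) + 1) * x 2 - Y * (1 - x 2) -
          1 / (2 * s)) ^ 2 + eδ n * (x 0) ^ 2 / (16 * eR n ^ 2) =
        ∑ i, (![Y, s, eδ n / (16 * eR n ^ 2)] : Fin 3 → ℝ) i *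
          (∑ j, (!![0, 0, -1; 0, 1, Y - eG n * ((k : ℕ) + 1);
            1, 0, 0] : Matrix (Fin 3) (Fin 3) ℝ) i j * x j -
            (![-(1 / 2), Y + 1 / (2 * s), 0] : Fin 3 → ℝ) i) ^ 2 := by
      simp only [Fin.sum_univ_three, Matrix.of_apply, Matrix.cons_val]
      ring
    show EL _ _ _ _ _ ↔ _
    rw [EL_iff hY hYK, ← hs, ← hYd, e]
    exact Iff.rfl
  · have hD := eD_pos (n := n)
    have hζ := eζ_pos (n := n)
    have hb := es_bound (n := n) l.2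
    have hη := eη_le (n := n)
    have hK := eK_ge (n := n)
    have hρ : eρ n (l : ℕ) < 1 / 2 := by
      have h1 := eρ_eq (n := n) (l : ℕ)
      by_contra hc
      push Not at hc
      nlinarith
    obtain ⟨r, hr⟩ : ∃ r, r = eρ n (l : ℕ) := ⟨_, rfl⟩
    have hr2 : (2 : ℝ)⁻¹ - r ≠ 0 := by rw [hr]; norm_num at hρ ⊢; linarith
    have hdet : (!![-((1 / 2 - r) / (eR n * eD n)), -((1 / 2 + r) / eD n), 0;
        0, 1 / (4 * ea n), 0; 0, 0, 4 / eζ n] : Matrix (Fin 3) (Fin 3) ℝ).det ≠ 0 := by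
      rw [Matrix.det_fin_three]
      simp [hR.ne', hD.ne', hζ.ne', ha.ne', hr2]
    obtain ⟨T, c, h⟩ := ell_of _ hdet ![-(4 * eK n * r ^ 2 - eD n) / eD n, 0, 4 * ((l : ℕ) + 1)]
    refine ⟨T, c, ?_⟩
    rw [← h]
    ext x
    have e : ((4 * eK n * r ^ 2 - ((1 / 2 - r) * (x 0 / eR n) + (1 / 2 + r) * x 1) -
        eD n) / eD n) ^ 2 + (x 1 / (4 * ea n)) ^ 2 +
          (4 * (x 2 - eζ n * ((l : ℕ) + 1)) / eζ n) ^ 2 =
        ∑ i, (∑ j, (!![-((1 / 2 - r) / (eR n * eD n)), -((1 / 2 + r) / eD n), 0;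
          0, 1 / (4 * ea n), 0; 0, 0, 4 / eζ n] : Matrix (Fin 3) (Fin 3) ℝ) i j * x j -
          (![-(4 * eK n * r ^ 2 - eD n) / eD n, 0, 4 * ((l : ℕ) + 1)] : Fin 3 → ℝ) i) ^ 2 := by
      simp only [Fin.sum_univ_three, Matrix.of_apply, Matrix.cons_val]
      field_simp
      ring
    show ((4 * eK n * eρ n (l : ℕ) ^ 2 - ((1 / 2 - eρ n (l : ℕ)) * (x 0 / eR n) +
      (1 / 2 + eρ n (l : ℕ)) * x 1) - eD n) / eD n) ^ 2 + (x 1 / (4 * ea n)) ^ 2 +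
        (4 * (x 2 - eζ n * ((l : ℕ) + 1)) / eζ n) ^ 2 ≤ 1 ↔ _
    rw [← hr, e]
    exact Iff.rfl
  · have hC := eC_pos (n := n) (m : ℕ)
    obtain ⟨p, hp⟩ : ∃ p, p = 4 * eC n (m : ℕ) / eδ n := ⟨_, rfl⟩
    obtain ⟨q, hq⟩ : ∃ q, q = 16 * eG n * ea n * eC n (m : ℕ) / eδ n := ⟨_, rfl⟩
    have hp0 : 0 < p := by rw [hp]; positivity
    have hq0 : 0 < q := by rw [hq]; positivity
    have hdet : (!![1, 1, -ew n (m : ℕ); 0, 0, 1 / p; 1 / q, 0, 0] :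
        Matrix (Fin 3) (Fin 3) ℝ).det ≠ 0 := by
      rw [Matrix.det_fin_three]
      simp [hp0.ne', hq0.ne']
    obtain ⟨T, c, h⟩ := ell_of _ hdet ![eC n (m : ℕ), 0, 0]
    refine ⟨T, c, ?_⟩
    rw [← h]
    ext x
    have e : (x 0 + x 1 - eC n (m : ℕ) - ew n (m : ℕ) * x 2) ^ 2 + (x 2 / p) ^ 2 + (x 0 / q) ^ 2 =
        ∑ i, (∑ j, (!![1, 1, -ew n (m : ℕ); 0, 0, 1 / p; 1 / q, 0, 0] :
          Matrix (Fin 3) (Fin 3) ℝ) i j * x j - (![eC n (m : ℕ), 0, 0] : Fin 3 → ℝ) i) ^ 2 := by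
      simp only [Fin.sum_univ_three, Matrix.of_apply, Matrix.cons_val]
      ring
    show (x 0 + x 1 - eC n (m : ℕ) - ew n (m : ℕ) * x 2) ^ 2 + (x 2 / (4 * eC n (m : ℕ) / eδ n)) ^ 2 +
      (x 0 / (16 * eG n * ea n * eC n (m : ℕ) / eδ n)) ^ 2 ≤ 1 ↔ _
    rw [← hp, ← hq, e]
    exact Iff.rfl

end Pool.Agent.H44.TE
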