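import Pool.Agent.H44.TE.Lin

set_option autoImplicit false

/-!
# [H44 TE Sep] The sample lines are separated by the open cones (MP_ce02af_co, ellipsoids)
-/

namespace Pool.Agent.H44.TE

open Pool.Agent.H44.TB (E3 Line3 transversalSpace dirSet ext3 line_coords pt Idx lin mem_lin dir_lin
  pt_ne direction_smul pt_0 pt_1 pt_2)

variable {n M : ℕ}

private theorem dlt_le (n : ℕ) : 4 * eδ n ≤ eη n := by
  have h1 := eη3 n
  have h2 := eη_le (n := n)
  have h3 := eη_pos (n := n)
  have h4 := eK_ge (n := n)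
  have h6 := eδ_pos (n := n)
  have h5 : eη n ^ 3 ≤ eη n := by
    have : eη n ^ 2 ≤ 1 := pow_le_one₀ h3.le (by linarith)
    calc eη n ^ 3 = eη n ^ 2 * eη n := by ring
      _ ≤ 1 * eη n := mul_le_mul_of_nonneg_right this h3.le
      _ = eη n := one_mul _
  nlinarith

private theorem smp_b {i : ℕ} (hi : i + 1 < n) : -eη n < esmp n i ∧ esmp n i < eη n := by
  have h1 := es_bound (n := n) (l := i) (by omega)
  have h2 := es_bound (n := n) (l := i + 1) hi
  have h3 := smp_mid' (n := n) i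
  have h4 : 0 < eη n / ea n := div_pos eη_pos ea_pos
  constructor
  · unfold esmp; linarith [h1.1]
  · rw [h3]; linarith [h2.2]

/-- as `sample_dir` in `H44/TD/Sep.lean` -/
theorem sample_dir (hn : 2 ≤ n) {c : ℕ × ℕ × ℕ} (hi : c.2.2 + 1 < n) :
    sampleLine n c ∈ dirSet (coneOp n c) := by
  have _ := hn
  obtain ⟨j, k, i⟩ := c
  simp only at hi
  have ha0 : 0 < ea n := ea_pos
  have hη0 := eη_pos (n := n)
  have hδ0 : 0 < eδ n := eδ_pos
  have hd := dlt_le n
  have h1 : esmp n i = es n i + eη n / ea n := rfl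
  have h2 := smp_mid' (n := n) i
  obtain ⟨_, h3⟩ := smp_b hi
  have h4 : 0 < eη n / ea n := by positivity
  refine ⟨_, dir_lin _ _ _ _, pt_ne _ _, ?_⟩
  rw [mem_coneOp]
  simp only [pt_0, pt_1, pt_2, mul_one]
  refine ⟨one_pos, by linarith, by linarith, by linarith, by linarith⟩

/-- Different cells are separated because the spacing `G` is large. -/
private theorem cell_eq {j j' : ℕ} {u u' : ℝ} (hu0 : -1 ≤ u) (hu1 : u ≤ 1) (hu0' : -1 ≤ u') (hu1' : u' ≤ 1)
    (h : |(eG n * (j + 1) + u) - (eG n * (j' + 1) + u')| ≤ 1) : j = j' := by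
  have hG := eG_ge (n := n)
  obtain ⟨h1, h2⟩ := abs_le.1 h
  rcases lt_trichotomy j j' with hlt | heq | hgt
  · exfalso
    have h3 : (j : ℝ) + 1 ≤ j' := by exact_mod_cast hlt
    have h4 : eG n * ((j : ℝ) + 1) ≤ eG n * j' := mul_le_mul_of_nonneg_left h3 (by linarith)
    linarith
  · exact heq
  · exfalso
    have h3 : (j' : ℝ) + 1 ≤ j := by exact_mod_cast hgt
    have h4 : eG n * ((j' : ℝ) + 1) ≤ eG n * j := mul_le_mul_of_nonneg_left h3 (by linarith)
    linarith

/-- The open cones separate the sample lines; as `sep` in `H44/TD/Sep.lean`. -/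
theorem sep (hn : 2 ≤ n) {c d : ℕ × ℕ × ℕ} (hc : c.2.2 + 1 < n) (hd : d.2.2 + 1 < n)
    (h : sampleLine n d ∈ dirSet (coneOp n c)) : c = d := by
  have _ := hn
  obtain ⟨j, k, i⟩ := c
  obtain ⟨j', k', i'⟩ := d
  simp only at hc hd
  obtain ⟨v, hv, hv0, hvc⟩ := h
  obtain ⟨c, rfl⟩ := direction_smul (dir_lin _ _ _ _) (pt_ne _ _) hv
  rw [mem_coneOp] at hvc
  simp only [PiLp.smul_apply, pt_0, pt_1, pt_2, smul_eq_mul, mul_one] at hvc
  obtain ⟨h2, hA, hB, hC, hD⟩ := hvc
  have ha0 : 0 < ea n := ea_pos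
  have hη0 := eη_pos (n := n)
  have hη1 := eη_le (n := n)
  have hδ0 : 0 < eδ n := eδ_pos
  have hδ1 := dlt_le n
  have hG := eG_ge (n := n)
  rw [mul_comm c] at hA hB hC
  have hA' := lt_of_mul_lt_mul_right hA h2.le
  have hB' := lt_of_mul_lt_mul_right hB h2.le
  have hC' := lt_of_mul_lt_mul_right hC h2.le
  have hD' : eG n * ((j' : ℝ) + 1) + esmp n i' + (eG n * (k' + 1) + (-esmp n i' - 2 * eδ n)) <
      eG n * (j + k + 2) - eδ n := by
    have e : c * (eG n * ((j' : ℝ) + 1) + esmp n i') +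
        c * (eG n * (k' + 1) + (-esmp n i' - 2 * eδ n)) =
      (eG n * ((j' : ℝ) + 1) + esmp n i' + (eG n * (k' + 1) + (-esmp n i' - 2 * eδ n))) * c := by
      ring
    rw [e] at hD
    exact lt_of_mul_lt_mul_right hD h2.le
  obtain ⟨hs0, hs1⟩ := smp_b hd
  have hb1 := es_bound (n := n) (l := i) (by omega)
  have hb2 := es_bound (n := n) (l := i + 1) hc
  -- the first index
  have hjj : j = j' := by
    refine cell_eq (n := n) (u := es n i) (u' := esmp n i') (by linarith) (by linarith)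
      (by linarith) (by linarith) (abs_le.2 ⟨by linarith, by linarith⟩)
  subst hjj
  -- the third index
  have hii : i = i' := by
    have e1 : es n i < esmp n i' := by linarith
    have e2 : esmp n i' < es n (i + 1) := by linarith
    have e0 : esmp n i' = eη n * ((2 * (i' : ℝ) + 3) / ea n - 1) := by
      unfold esmp es; field_simp; ring
    rw [e0] at e1 e2
    have e3 : (i : ℝ) < (i' : ℝ) + 1 := by
      have h1 : 2 * ((i : ℝ) + 1) / ea n - 1 < (2 * (i' : ℝ) + 3) / ea n - 1 := by
        unfold es at e1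
        exact lt_of_mul_lt_mul_left e1 hη0.le
      have h3 : 2 * ((i : ℝ) + 1) / ea n < (2 * (i' : ℝ) + 3) / ea n := by linarith
      have h4 := (div_lt_div_iff_of_pos_right ha0).1 h3
      linarith
    have e4 : (i' : ℝ) < (i : ℝ) + 1 := by
      have h1 : (2 * (i' : ℝ) + 3) / ea n - 1 < 2 * (((i + 1 : ℕ) : ℝ) + 1) / ea n - 1 := by
        unfold es at e2
        exact lt_of_mul_lt_mul_left e2 hη0.le
      have h3 : (2 * (i' : ℝ) + 3) / ea n < 2 * (((i + 1 : ℕ) : ℝ) + 1) / ea n := by linarith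
      have h4 := (div_lt_div_iff_of_pos_right ha0).1 h3
      push_cast at h4
      linarith
    have e5 : i < i' + 1 := by exact_mod_cast e3
    have e6 : i' < i + 1 := by exact_mod_cast e4
    omega
  subst hii
  -- the second index
  have hkk : k = k' := by
    rcases lt_trichotomy k k' with hlt | heq | hgt
    · exfalso
      have h3 : (k : ℝ) + 1 ≤ k' := by exact_mod_cast hlt
      have h4 : eG n * ((k : ℝ) + 1) ≤ eG n * k' := mul_le_mul_of_nonneg_left h3 (by linarith)
      linarith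
    · exact heq
    · exfalso
      have h3 : (k' : ℝ) + 1 ≤ k := by exact_mod_cast hgt
      have h4 : eG n * ((k' : ℝ) + 1) ≤ eG n * k := mul_le_mul_of_nonneg_left h3 (by linarith)
      linarith
  subst hkk
  rfl

end Pool.Agent.H44.TE
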