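import Pool.Agent.H44.TE.Pla

set_option autoImplicit false

/-!
# [H44 TE Hit] The sample lines meet the planar ellipses with a margin (MP_ce02af_co, ellipsoids)
-/

namespace Pool.Agent.H44.TE

variable {K Y σ η δ a : ℝ}

/-- the discriminant of the quadratic inequality -/
theorem pl_gen (hY : 0 < Y) (hK : Y < K) {g₀ τ c : ℝ}
    (h : 4 * c * (Y + (K - Y) / Y ^ 2 * (Y + τ) ^ 2) ≤
      τ ^ 2 + 4 * K * g₀ + 4 * ((K - Y) / Y) * (τ - g₀) * g₀) :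
    ∃ u, EL Y K (g₀ - τ * u) u c := by
  obtain ⟨w, hw⟩ : ∃ w, w = (K - Y) / Y ^ 2 := ⟨_, rfl⟩
  have hw0 : 0 < w := by rw [hw]; exact div_pos (by linarith) (by positivity)
  have hwY : K = w * Y ^ 2 + Y := by rw [hw]; field_simp; ring
  have hq : (K - Y) / Y = w * Y := by rw [hw]; field_simp
  rw [hq, ← hw] at h
  have hA : 0 < Y + w * (Y + τ) ^ 2 := by positivity
  obtain ⟨A, hAd⟩ : ∃ A, A = Y + w * (Y + τ) ^ 2 := ⟨_, rfl⟩
  obtain ⟨B, hBd⟩ : ∃ B, B = τ - 2 * w * g₀ * (Y + τ) := ⟨_, rfl⟩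
  obtain ⟨C, hCd⟩ : ∃ C, C = w * g₀ ^ 2 + c - g₀ := ⟨_, rfl⟩
  have hdisc : 4 * A * C ≤ B ^ 2 := by
    have e : B ^ 2 - 4 * A * C = τ ^ 2 + 4 * K * g₀ + 4 * (w * Y) * (τ - g₀) * g₀ -
        4 * c * (Y + w * (Y + τ) ^ 2) := by
      rw [hAd, hBd, hCd, hwY]; ring
    linarith
  rw [← hAd] at hA
  refine ⟨-B / (2 * A), ?_⟩
  unfold EL
  rw [← hw]
  have e1 : ∀ u : ℝ, Y * u ^ 2 + w * (g₀ - τ * u - Y * u) ^ 2 + c - (g₀ - τ * u) =
      A * u ^ 2 + B * u + C := by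
    intro u; rw [hAd, hBd, hCd]; ring
  have e2 : A * (-B / (2 * A)) ^ 2 + B * (-B / (2 * A)) + C = (4 * A * C - B ^ 2) / (4 * A) := by
    field_simp; ring
  have e3 : (4 * A * C - B ^ 2) / (4 * A) ≤ 0 :=
    div_nonpos_of_nonpos_of_nonneg (by linarith) (by positivity)
  have := e1 (-B / (2 * A))
  linarith

/-- own cell: `disc ≥ 4 K δ - 24 η³ / Y ≥ 3 K δ`, `A ≤ 1.5 K` -/
theorem pl_own (hY : 10 ≤ Y) (hK : 100 * Y ≤ K) (hη0 : 0 < η) (hη : η ≤ 1 / 1024)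
    (hη3 : 32 * η ^ 3 = K * δ) (hδ0 : 0 < δ) (hσ : |σ| ≤ 2 * η) :
    ∃ u, EL Y K ((-(σ ^ 2 / (4 * K)) + δ) - σ * u) u (δ / 4) := by
  have hY0 : 0 < Y := by linarith
  have hK0 : 0 < K := by linarith
  apply pl_gen hY0 (by linarith)
  obtain ⟨g, hg⟩ : ∃ g, g = -(σ ^ 2 / (4 * K)) + δ := ⟨_, rfl⟩
  rw [← hg]
  have hKg : K * g = -(σ ^ 2 / 4) + 32 * η ^ 3 := by rw [hg, hη3]; field_simp
  obtain ⟨q, hq⟩ : ∃ q, q = (K - Y) / Y := ⟨_, rfl⟩
  have hqY : q * Y = K - Y := by rw [hq]; field_simp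
  have hq0 : 0 ≤ q := by rw [hq]; exact div_nonneg (by linarith) hY0.le
  have hw : (K - Y) / Y ^ 2 = q / Y := by rw [hq]; field_simp
  rw [hw, ← hq]
  have hσ2 : σ ^ 2 ≤ 4 * η ^ 2 := by
    have := abs_le.1 hσ
    nlinarith
  have hη2 : 32 * η ^ 3 ≤ η ^ 2 / 32 := by
    have : 0 < η ^ 2 := by positivity
    nlinarith
  have hKga : |K * g| ≤ 33 / 32 * η ^ 2 := by
    rw [hKg, abs_le]
    constructor
    · have : 0 < η ^ 3 := by positivity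
      nlinarith
    · nlinarith [sq_nonneg σ]
  have hKa : |K * g| = K * |g| := by rw [abs_mul, abs_of_pos hK0]
  rw [hKa] at hKga
  have hga0 : 0 ≤ |g| := abs_nonneg g
  have hqK : 10 * q ≤ K := by nlinarith
  have hqg : q * |g| ≤ 33 / 320 * η ^ 2 := by nlinarith
  have hg1 : |g| ≤ 33 / 32000 * η ^ 2 := by nlinarith
  -- the mixed term
  have t1 : -(33 / 40 * η ^ 3 + η ^ 3 / 1000) ≤ 4 * q * (σ - g) * g := by
    have h1 : |4 * q * (σ - g) * g| ≤ 4 * (|σ| + |g|) * (q * |g|) := by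
      rw [abs_mul, abs_mul, abs_mul, abs_of_pos (by norm_num : (0 : ℝ) < 4), abs_of_nonneg hq0]
      have := abs_sub σ g
      have h2 : |σ - g| ≤ |σ| + |g| := by
        simpa [sub_eq_add_neg] using abs_add_le σ (-g)
      calc 4 * q * |σ - g| * |g| = 4 * |σ - g| * (q * |g|) := by ring
        _ ≤ 4 * (|σ| + |g|) * (q * |g|) := by gcongr
    have h3 : 4 * (|σ| + |g|) * (q * |g|) ≤ 4 * (2 * η + 33 / 32000 * η ^ 2) *
        (33 / 320 * η ^ 2) := by gcongr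
    have h4 : 4 * (2 * η + 33 / 32000 * η ^ 2) * (33 / 320 * η ^ 2) ≤
        33 / 40 * η ^ 3 + η ^ 3 / 1000 := by
      have : 0 < η ^ 3 := by positivity
      nlinarith
    have h5 := (abs_le.1 (h1.trans (h3.trans h4))).1
    exact h5
  -- the margin
  have t2 : 4 * (δ / 4) * (Y + q / Y * (Y + σ) ^ 2) ≤ 33 * η ^ 3 := by
    have h1 : (Y + σ) ^ 2 ≤ 33 / 32 * Y ^ 2 := by
      have := abs_le.1 hσ
      nlinarith
    have h2 : q / Y * (Y + σ) ^ 2 ≤ q / Y * (33 / 32 * Y ^ 2) := by gcongr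
    have h3 : q / Y * (33 / 32 * Y ^ 2) = 33 / 32 * (K - Y) := by
      rw [← hqY]; field_simp
    have h4 : Y + q / Y * (Y + σ) ^ 2 ≤ 33 / 32 * K := by nlinarith
    calc 4 * (δ / 4) * (Y + q / Y * (Y + σ) ^ 2) = δ * (Y + q / Y * (Y + σ) ^ 2) := by ring
      _ ≤ δ * (33 / 32 * K) := by gcongr
      _ = 33 / 32 * (K * δ) := by ring
      _ = 33 * η ^ 3 := by rw [← hη3]; ring
  have t3 : σ ^ 2 + 4 * K * g = 128 * η ^ 3 := by
    have : 4 * K * g = 4 * (K * g) := by ring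
    rw [this, hKg]; ring
  have : 0 < η ^ 3 := by positivity
  linarith

/-- other cells: `D = 8 K m`, `|m| ≥ 1`: `disc ≥ 0.4 D²`, `A ≤ 0.02 K D²`, `K δ ≤ 1` -/
theorem pl_oth (hY : 10 ≤ Y) (hK : 100 * Y ≤ K) (hη0 : 0 < η) (hη : η ≤ 1 / 1024)
    (hη3 : 32 * η ^ 3 = K * δ) (hδ0 : 0 < δ) (hσ : |σ| ≤ 2 * η) {D : ℝ} (hD : 8 * K ≤ |D|) :
    ∃ u, EL Y K ((D + (-(σ ^ 2 / (4 * K)) + δ)) - (D + σ) * u) u (δ / 4) := by
  have hY0 : 0 < Y := by linarith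
  have hK0 : 0 < K := by linarith
  have hK1 : 1000 ≤ K := by linarith
  apply pl_gen hY0 (by linarith)
  obtain ⟨g, hg⟩ : ∃ g, g = -(σ ^ 2 / (4 * K)) + δ := ⟨_, rfl⟩
  rw [← hg]
  have hKg : K * g = -(σ ^ 2 / 4) + 32 * η ^ 3 := by rw [hg, hη3]; field_simp
  obtain ⟨q, hq⟩ : ∃ q, q = (K - Y) / Y := ⟨_, rfl⟩
  have hqY : q * Y = K - Y := by rw [hq]; field_simp
  have hq0 : 0 ≤ q := by rw [hq]; exact div_nonneg (by linarith) hY0.le
  have hw : (K - Y) / Y ^ 2 = q / Y := by rw [hq]; field_simp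
  rw [hw, ← hq]
  have hσ2 : σ ^ 2 ≤ 4 * η ^ 2 := by
    have := abs_le.1 hσ
    nlinarith
  have hη1 : η ^ 2 ≤ 1 / 1000000 := by nlinarith
  have hη2 : 32 * η ^ 3 ≤ η ^ 2 / 32 := by
    have : 0 < η ^ 2 := by positivity
    nlinarith
  have hη30 : 0 < η ^ 3 := by positivity
  have hKga : |K * g| ≤ 33 / 32 * η ^ 2 := by
    rw [hKg, abs_le]
    constructor
    · nlinarith
    · nlinarith [sq_nonneg σ]
  have hKa : |K * g| = K * |g| := by rw [abs_mul, abs_of_pos hK0]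
  rw [hKa] at hKga
  have hga0 : 0 ≤ |g| := abs_nonneg g
  have hg1 : |g| ≤ 1 / 1000 := by nlinarith
  have hσ1 : |σ| ≤ 1 / 500 := by linarith
  have hD0 : 8000 ≤ |D| := by linarith
  have hqK : 10 * q ≤ K := by nlinarith
  have hDD : |D| ^ 2 = D ^ 2 := sq_abs D
  -- the square
  have t1 : 99 / 100 * |D| ^ 2 ≤ (D + σ) ^ 2 := by
    have h1 : |D * σ| ≤ 1 / 1000 * |D| ^ 2 := by
      rw [abs_mul]
      nlinarith [abs_nonneg σ]
    have h2 := (abs_le.1 h1).1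
    nlinarith [sq_nonneg σ]
  have t1' : (D + σ) ^ 2 ≤ 101 / 100 * |D| ^ 2 := by
    have h1 : |D * σ| ≤ 1 / 1000 * |D| ^ 2 := by
      rw [abs_mul]
      nlinarith [abs_nonneg σ]
    have h2 := (abs_le.1 h1).2
    nlinarith [sq_nonneg σ]
  have hDg : |D + g| ≤ 101 / 100 * |D| := by
    have := abs_add_le D g
    linarith
  -- the linear term
  have t2 : -(51 / 100 * |D| ^ 2) ≤ 4 * K * (D + g) := by
    have h1 : |4 * K * (D + g)| ≤ 51 / 100 * |D| ^ 2 := by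
      rw [abs_mul, abs_of_pos (by linarith : 0 < 4 * K)]
      calc 4 * K * |D + g| ≤ 4 * (|D| / 8) * (101 / 100 * |D|) := by
            apply mul_le_mul (by linarith) hDg (abs_nonneg _) (by positivity)
        _ ≤ 51 / 100 * |D| ^ 2 := by nlinarith [sq_nonneg |D|]
    exact (abs_le.1 h1).1
  -- the mixed term
  have t3 : -(1 / 100 * |D| ^ 2) ≤ 4 * q * (D + σ - (D + g)) * (D + g) := by
    have h0 : D + σ - (D + g) = σ - g := by ring
    rw [h0]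
    have h2 : |σ - g| ≤ 3 / 1000 := by
      have : |σ - g| ≤ |σ| + |g| := by
        simpa [sub_eq_add_neg] using abs_add_le σ (-g)
      linarith
    have h1 : |4 * q * (σ - g) * (D + g)| ≤ 1 / 100 * |D| ^ 2 := by
      rw [abs_mul, abs_mul, abs_mul, abs_of_pos (by norm_num : (0 : ℝ) < 4), abs_of_nonneg hq0]
      calc 4 * q * |σ - g| * |D + g| ≤ 4 * (|D| / 80) * (3 / 1000) * (101 / 100 * |D|) := by
            gcongr
            linarith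
        _ ≤ 1 / 100 * |D| ^ 2 := by nlinarith [sq_nonneg |D|]
    exact (abs_le.1 h1).1
  -- the margin
  have t4 : 4 * (δ / 4) * (Y + q / Y * (Y + (D + σ)) ^ 2) ≤ 1 / 100 * |D| ^ 2 := by
    have h1 : (Y + (D + σ)) ^ 2 ≤ 3 * |D| ^ 2 := by
      have h2 : (Y + (D + σ)) ^ 2 ≤ 2 * Y ^ 2 + 2 * (D + σ) ^ 2 := by
        nlinarith [sq_nonneg (Y - (D + σ))]
      have h3 : Y ≤ |D| / 100 := by linarith
      have h4 : Y ^ 2 ≤ (|D| / 100) ^ 2 := by gcongr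
      nlinarith
    have h5 : q / Y ≤ K / 100 := by
      rw [div_le_iff₀ hY0]
      nlinarith
    have h6 : Y + q / Y * (Y + (D + σ)) ^ 2 ≤ K * (3 / 100 * |D| ^ 2 + 1) := by
      calc Y + q / Y * (Y + (D + σ)) ^ 2 ≤ K + K / 100 * (3 * |D| ^ 2) := by
            have : q / Y * (Y + (D + σ)) ^ 2 ≤ K / 100 * (3 * |D| ^ 2) := by gcongr
            linarith
        _ = _ := by ring
    have h7 : K * δ ≤ 1 / 100 := by rw [← hη3]; linarith
    have h8 : 1 ≤ |D| ^ 2 := by nlinarith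
    calc 4 * (δ / 4) * (Y + q / Y * (Y + (D + σ)) ^ 2)
        = δ * (Y + q / Y * (Y + (D + σ)) ^ 2) := by ring
      _ ≤ δ * (K * (3 / 100 * |D| ^ 2 + 1)) := by gcongr
      _ = K * δ * (3 / 100 * |D| ^ 2 + 1) := by ring
      _ ≤ 1 / 1000 * (3 / 100 * |D| ^ 2 + 1) := by
          have : K * δ ≤ 1 / 1000 := by rw [← hη3]; linarith
          gcongr
      _ ≤ 1 / 100 * |D| ^ 2 := by nlinarith
  have hD2 : 0 ≤ |D| ^ 2 := by positivity
  linarith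

end Pool.Agent.H44.TE
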