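import Pool.Agent.H44.TE.Lin
import Pool.Agent.H44.TE.Hit

set_option autoImplicit false

/-!
# [H44 TE Smp] The sample lines meet all ellipsoids (MP_ce02af_co)
-/

namespace Pool.Agent.H44.TE

open Pool.Agent.H44.TB (E3 Line3 transversalSpace dirSet ext3 line_coords pt Idx lin mem_lin dir_lin
  pt_ne direction_smul pt_0 pt_1 pt_2)

variable {n M : ℕ}

theorem EL_mono {Y K g u c c' : ℝ} (h : EL Y K g u c) (hc : c' ≤ c) : EL Y K g u c' := by
  unfold EL at *; linarith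

/-- A line meets the planar ellipse with index `j'` with a margin. -/
theorem hitE {Y : ℝ} (hY : 10 ≤ Y) (hK : 100 * Y ≤ eK n) {σ : ℝ} (hσ : |σ| ≤ 2 * eη n)
    (j j' : ℕ) : ∃ z : ℝ, EL Y (eK n)
      (((eP n σ - σ) + (eG n * (j + 1) + σ) * z) - eG n * (j' + 1) * z) (1 - z) (eδ n / 4) ∧
      |z| ≤ 2 := by
  have hK0 := eK_pos (n := n)
  have hbox : ∀ g u : ℝ, EL Y (eK n) g u (eδ n / 4) → |1 - u| ≤ 2 := by
    intro g u h
    have hδ := eδ_pos (n := n)
    obtain ⟨_, h1, h2, _, _, _⟩ := pl_box hY hK (by linarith) h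
    have h3 : Y / (3 * eK n) ≤ 1 := by
      rw [div_le_one (by linarith)]; linarith
    exact abs_le.2 ⟨by linarith, by linarith⟩
  have hη0 := eη_pos (n := n)
  by_cases h : j = j'
  · subst h
    obtain ⟨u, hu⟩ := pl_own hY hK hη0 eη_le (eη3 n) eδ_pos hσ
    refine ⟨1 - u, ?_, hbox _ _ hu⟩
    have e1 : ((eP n σ - σ) + (eG n * (j + 1) + σ) * (1 - u)) - eG n * (j + 1) * (1 - u) =
        (-(σ ^ 2 / (4 * eK n)) + eδ n) - σ * u := by unfold eP; ring
    have e2 : 1 - (1 - u) = u := by ring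
    rw [e1, e2]; exact hu
  · have hD : 8 * eK n ≤ |eG n * ((j : ℝ) - j')| := by
      rw [abs_mul, abs_of_pos (eG_pos (n := n))]
      have hd1 : 1 ≤ |(j : ℝ) - j'| := by
        rcases lt_or_gt_of_ne h with h | h
        · have : (j : ℝ) + 1 ≤ j' := by exact_mod_cast h
          rw [abs_of_neg (by linarith)]; linarith
        · have : (j' : ℝ) + 1 ≤ j := by exact_mod_cast h
          rw [abs_of_pos (by linarith)]; linarith
      have := mul_le_mul_of_nonneg_left hd1 (eG_pos (n := n)).le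
      rw [eG_eq] at this ⊢
      linarith
    obtain ⟨u, hu⟩ := pl_oth hY hK hη0 eη_le (eη3 n) eδ_pos hσ hD
    refine ⟨1 - u, ?_, hbox _ _ hu⟩
    have e1 : ((eP n σ - σ) + (eG n * (j + 1) + σ) * (1 - u)) - eG n * (j' + 1) * (1 - u) =
        (eG n * ((j : ℝ) - j') + (-(σ ^ 2 / (4 * eK n)) + eδ n)) -
          (eG n * ((j : ℝ) - j') + σ) * u := by unfold eP; ring
    have e2 : 1 - (1 - u) = u := by ring
    rw [e1, e2]; exact hu

theorem P_small {σ : ℝ} (hσ : |σ| ≤ 2 * eη n) : |eP n σ - σ| ≤ 1 / 2 := by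
  have hη0 := eη_pos (n := n)
  have hη := eη_le (n := n)
  have hK := eK_ge (n := n)
  have hδ0 := eδ_pos (n := n)
  have hδ := eδ_le (n := n)
  obtain ⟨h1, h2⟩ := abs_le.1 hσ
  have h3 : σ ^ 2 / (4 * eK n) ≤ 1 / 100 := by
    rw [div_le_div_iff₀ (by linarith) (by norm_num)]
    nlinarith
  have h4 : 0 ≤ σ ^ 2 / (4 * eK n) := by positivity
  unfold eP
  exact abs_le.2 ⟨by linarith, by linarith⟩

theorem slopeE {k : ℕ} (hk : k < n) {t : ℝ} (ht : |t| ≤ 1) :
    0 ≤ eG n * (k + 1) + t ∧ eG n * (k + 1) + t ≤ eG n * ea n := by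
  have hG := eG_ge (n := n)
  have hk0 : (0 : ℝ) ≤ k := by positivity
  have hkn : (k : ℝ) + 1 ≤ n := by exact_mod_cast hk
  obtain ⟨h1, h2⟩ := abs_le.1 ht
  constructor
  · have : eG n * 1 ≤ eG n * ((k : ℝ) + 1) := mul_le_mul_of_nonneg_left (by linarith) (by linarith)
    linarith
  · have e : eG n * ea n = eG n * n + eG n := by unfold ea; ring
    have : eG n * ((k : ℝ) + 1) ≤ eG n * n := mul_le_mul_of_nonneg_left hkn (by linarith)
    rw [e]; linarith

/-- the sample line meets `H_m` -/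
theorem hitH {m : ℕ} {α β p q D : ℝ} (hp : |p| ≤ eR n) (hq : |q| ≤ 1)
    (hα0 : 0 ≤ α) (hα : α ≤ eG n * ea n) (hD : α + β = ew n m + D) (hD2 : eδ n ≤ |D|) :
    ∃ z : ℝ, ((p + α * z) + (q + β * z) - eC n m - ew n m * z) ^ 2 +
      (z / (4 * eC n m / eδ n)) ^ 2 +
      ((p + α * z) / (16 * eG n * ea n * eC n m / eδ n)) ^ 2 ≤ 1 := by
  have ha := ea_one (n := n)
  have hG := eG_ge (n := n)
  have hC0 := eC_pos (n := n) m
  have hC := eC_ge (n := n) m
  have hδ := eδ_pos (n := n)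
  have hδ1 := eδ_le (n := n)
  have hR0 := eR_pos (n := n)
  have hY := eYA_ge' (n := n) n
  have hGa : 8000000 ≤ eG n * ea n := by nlinarith
  have hRe : eR n = 16 * (eG n * ea n) := by unfold eR; ring
  set C := eC n m with hCdef
  set R := eR n with hRdef
  set δ := eδ n with hδdef
  have hCR : 1000 * R ≤ C := by
    refine le_trans ?_ hC
    rw [le_div_iff₀ hδ]
    have h1 : 1000 * R * δ ≤ 1000 * R * 1 := mul_le_mul_of_nonneg_left (by linarith) (by linarith)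
    have e : 1000 * eG n * ea n * R * eYA n n = 1000 * R * ((eG n * ea n) * eYA n n) := by ring
    rw [e]
    have h2 : 1 ≤ (eG n * ea n) * eYA n n :=
      one_le_mul_of_one_le_of_one_le (by linarith) (by linarith)
    have h3 : 1000 * R * 1 ≤ 1000 * R * ((eG n * ea n) * eYA n n) :=
      mul_le_mul_of_nonneg_left h2 (by linarith)
    linarith
  have hR1 : 1 ≤ R := by rw [hRe]; linarith
  obtain ⟨hp1, hp2⟩ := abs_le.1 hp
  obtain ⟨hq1, hq2⟩ := abs_le.1 hq
  set T := C - (p + q) with hT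
  have hT0 : 0 < T := by linarith
  have hT2 : T ≤ 2 * C := by linarith
  have hD0 : D ≠ 0 := by
    intro h; rw [h, abs_zero] at hD2; linarith
  have hDz : D * (T / D) = T := by field_simp
  have hzb : |T / D| ≤ 2 * C / δ := by
    rw [abs_div, abs_of_pos hT0]
    exact div_le_div₀ (by linarith) hT2 hδ hD2
  refine ⟨T / D, ?_⟩
  have e1 : (p + α * (T / D)) + (q + β * (T / D)) - C - ew n m * (T / D) = 0 := by
    have h1 : (p + α * (T / D)) + (q + β * (T / D)) = p + q + (α + β) * (T / D) := by ring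
    rw [h1, hD, add_mul, hDz, hT]; ring
  rw [e1]
  have h2 : ((T / D) / (4 * C / δ)) ^ 2 ≤ 1 / 4 := by
    have h3 : |(T / D) / (4 * C / δ)| ≤ 1 / 2 := by
      rw [abs_div, abs_of_pos (by positivity : 0 < 4 * C / δ), div_le_iff₀ (by positivity)]
      calc |T / D| ≤ 2 * C / δ := hzb
        _ = 1 / 2 * (4 * C / δ) := by ring
    rw [← sq_abs]
    calc |(T / D) / (4 * C / δ)| ^ 2 ≤ (1 / 2) ^ 2 := pow_le_pow_left₀ (abs_nonneg _) h3 2
      _ = 1 / 4 := by norm_num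
  have h4 : ((p + α * (T / D)) / (16 * eG n * ea n * C / δ)) ^ 2 ≤ 1 / 4 := by
    have h5 : |(p + α * (T / D)) / (16 * eG n * ea n * C / δ)| ≤ 1 / 2 := by
      have hX : 0 < 16 * eG n * ea n * C / δ := by
        have := eG_pos (n := n)
        have := ea_pos (n := n)
        positivity
      rw [abs_div, abs_of_pos hX, div_le_iff₀ hX]
      have h6 : |p + α * (T / D)| ≤ R + eG n * ea n * (2 * C / δ) := by
        refine (abs_add_le _ _).trans ?_
        rw [abs_mul, abs_of_nonneg hα0]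
        exact add_le_add hp (mul_le_mul hα hzb (abs_nonneg _) (by linarith))
      have h7 : C ≤ C / δ := by
        rw [le_div_iff₀ hδ]; nlinarith
      have h8 : 1 * (C / δ) ≤ eG n * ea n * (C / δ) :=
        mul_le_mul_of_nonneg_right (by linarith) (by positivity)
      have e2 : 1 / 2 * (16 * eG n * ea n * C / δ) = 8 * (eG n * ea n * (C / δ)) := by ring
      have e3 : eG n * ea n * (2 * C / δ) = 2 * (eG n * ea n * (C / δ)) := by ring
      rw [e2]
      rw [e3] at h6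
      linarith
    rw [← sq_abs]
    calc _ ≤ (1 / 2 : ℝ) ^ 2 := pow_le_pow_left₀ (abs_nonneg _) h5 2
      _ = 1 / 4 := by norm_num
  linarith

/-- the sample line meets `F_l`: pure estimate -/
theorem hitF_aux {K a η δ D σ s ρ sh y : ℝ} (hK : 1000 ≤ K) (ha : 3 ≤ a) (hη0 : 0 < η)
    (hη : η ≤ 1 / 1024) (hδ0 : 0 < δ) (hδe : 32 * K * a ^ 2 * δ = η ^ 2) (hDe : D = η ^ 2 / K)
    (hσ : |σ| ≤ η) (hs : |s| ≤ η) (hρ : 4 * K * ρ = s) (hgap : η / a ≤ |σ - s|)
    (hsh0 : 0 ≤ sh) (hsh : sh ≤ δ / 2) (hy : |y| ≤ 1) :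
    ((4 * K * ρ ^ 2 - ((1 / 2 - ρ) * ((-(σ ^ 2 / (4 * K)) + δ) - σ) +
      (1 / 2 + ρ) * ((-((-σ - 2 * δ) ^ 2 / (4 * K)) + δ) - (-σ - 2 * δ)) + sh) - D) / D) ^ 2 +
      (y / (4 * a)) ^ 2 ≤ 1 := by
  have hK0 : 0 < K := by linarith
  have ha0 : 0 < a := by linarith
  have hD0 : 0 < D := by rw [hDe]; positivity
  have hDδ : D = 32 * a ^ 2 * δ := by rw [hDe, ← hδe]; field_simp
  obtain ⟨hσ1, hσ2⟩ := abs_le.1 hσ
  obtain ⟨hs1, hs2⟩ := abs_le.1 hs
  have hρa : |ρ| ≤ 1 / 1000 := by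
    have h1 : |4 * K * ρ| ≤ η := by rw [hρ]; exact hs
    rw [abs_mul, abs_of_pos (by linarith : 0 < 4 * K)] at h1
    have h2 : 4000 * |ρ| ≤ 4 * K * |ρ| := mul_le_mul_of_nonneg_right (by linarith) (abs_nonneg _)
    linarith
  obtain ⟨hρ1, hρ2⟩ := abs_le.1 hρa
  set d := 4 * K * ρ ^ 2 - ((1 / 2 - ρ) * ((-(σ ^ 2 / (4 * K)) + δ) - σ) +
      (1 / 2 + ρ) * ((-((-σ - 2 * δ) ^ 2 / (4 * K)) + δ) - (-σ - 2 * δ)) + sh) with hd
  -- the exact form of `d`
  have e1 : d = (σ - s) ^ 2 / (4 * K) - (2 * ρ + 2) * δ - sh + (1 / 2 + ρ) * (δ * (σ + δ) / K) := by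
    have hr : ρ = s / (4 * K) := by rw [← hρ]; field_simp
    rw [hd, hr]
    field_simp
    ring
  have h8 : 8 * δ ≤ (σ - s) ^ 2 / (4 * K) := by
    have h1 : (η / a) ^ 2 ≤ (σ - s) ^ 2 := by
      rw [← sq_abs (σ - s)]
      exact pow_le_pow_left₀ (by positivity) hgap 2
    rw [le_div_iff₀ (by linarith)]
    refine le_trans (le_of_eq ?_) h1
    rw [div_pow, ← hδe]; field_simp; norm_num
  have h9 : (σ - s) ^ 2 / (4 * K) ≤ D := by
    rw [hDe]
    have h1 : (σ - s) ^ 2 ≤ (2 * η) ^ 2 := by apply sq_le_sq' <;> linarith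
    rw [div_le_div_iff₀ (by linarith) hK0]
    nlinarith
  have h11 : δ ≤ η := by
    have h12 : 1 ≤ a ^ 2 := one_le_pow₀ (by linarith)
    have h13 : 1 * δ ≤ K * a ^ 2 * δ := by
      apply mul_le_mul_of_nonneg_right _ hδ0.le
      nlinarith
    nlinarith
  have h10 : |δ * (σ + δ) / K| ≤ δ / 100 := by
    rw [abs_div, abs_mul, abs_of_pos hδ0, abs_of_pos hK0, div_le_div_iff₀ hK0 (by norm_num)]
    have : |σ + δ| ≤ 1 := abs_le.2 ⟨by linarith, by linarith⟩
    nlinarith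
  obtain ⟨h14, h15⟩ := abs_le.1 h10
  have h16 : |(1 / 2 + ρ) * (δ * (σ + δ) / K)| ≤ δ / 100 := by
    rw [abs_mul, abs_of_pos (by linarith : 0 < 1 / 2 + ρ)]
    have h17 : (1 / 2 + ρ) * |δ * (σ + δ) / K| ≤ 1 * (δ / 100) :=
      mul_le_mul (by linarith) h10 (abs_nonneg _) (by norm_num)
    linarith
  obtain ⟨h18, h19⟩ := abs_le.1 h16
  have hρδ : |2 * ρ * δ| ≤ δ / 100 := by
    rw [abs_mul, abs_mul, abs_of_pos hδ0, abs_of_pos (by norm_num : (0 : ℝ) < 2)]
    nlinarith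
  obtain ⟨h20, h21⟩ := abs_le.1 hρδ
  have hdl : 5 * δ ≤ d := by rw [e1]; linarith
  have hdu : d ≤ D := by rw [e1]; linarith
  set ε : ℝ := 5 / (32 * a ^ 2) with hε
  have hε0 : 0 < ε := by positivity
  have hεD : ε * D = 5 * δ := by rw [hε, hDδ]; field_simp
  have hx1 : -(1 - ε) ≤ (d - D) / D := by
    rw [le_div_iff₀ hD0]; linarith
  have hx2 : (d - D) / D ≤ 0 := div_nonpos_of_nonpos_of_nonneg (by linarith) hD0.le
  have hε1 : ε ≤ 1 := by
    rw [hε, div_le_one (by positivity)]; nlinarith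
  have hx3 : ((d - D) / D) ^ 2 ≤ 1 - ε := by
    have h22 : ((d - D) / D) ^ 2 ≤ (1 - ε) ^ 2 := by apply sq_le_sq' <;> linarith
    nlinarith
  have hy2 : (y / (4 * a)) ^ 2 ≤ ε := by
    rw [div_pow, hε, div_le_div_iff₀ (by positivity) (by positivity)]
    have h23 : y ^ 2 ≤ 1 := by
      rw [← sq_abs]; exact pow_le_one₀ (abs_nonneg _) hy
    have h24 : 0 < a ^ 2 := by positivity
    nlinarith
  linarith

theorem sample_mem (hn : 2 ≤ n) {c : ℕ × ℕ × ℕ} (hc1 : c.1 < n)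
    (hc2 : c.2.1 < n) (hi : c.2.2 + 1 < n) : sampleLine n c ∈ transversalSpace (efam n M) := by
  obtain ⟨j, k, i⟩ := c
  simp only at hi hc1 hc2
  have ha := ea_ge hn
  have ha0 : 0 < ea n := ea_pos
  have hG := eG_ge (n := n)
  have hG0 : 0 < eG n := eG_pos
  have hR0 : 0 < eR n := eR_pos
  have hE0 : 0 < eE n := eE_pos
  have hK := eK_ge (n := n)
  have hη0 := eη_pos (n := n)
  have hη := eη_le (n := n)
  have hδ0 : 0 < eδ n := eδ_pos
  have hδ1 := eδ_le (n := n)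
  have hζ0 := eζ_pos (n := n)
  have hRe : eR n = 16 * (eG n * ea n) := by unfold eR; ring
  have hEe : eE n = 2 * (eG n * ea n) * eR n := by unfold eE; ring
  have hGa : 8000000 ≤ eG n * ea n := by nlinarith
  have hR1 : 1 ≤ eR n := by rw [hRe]; linarith
  have hin : i < n := by omega
  have hb1 := es_bound (n := n) hin
  have hb2 := es_bound (n := n) hi
  have hηa : 0 < eη n / ea n := by positivity
  have hδη : 2 * eδ n ≤ eη n := by
    have h10 := eδ_eq n
    have h12 : 1 ≤ ea n ^ 2 := one_le_pow₀ (by linarith)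
    have h13 : 1 * eδ n ≤ eK n * ea n ^ 2 * eδ n := by
      apply mul_le_mul_of_nonneg_right _ hδ0.le
      nlinarith
    nlinarith
  set σ := esmp n i with hσdef
  have hmid : σ = es n (i + 1) - eη n / ea n := smp_mid' (n := n) i
  have hσ : |σ| ≤ eη n := by
    refine abs_le.2 ⟨?_, ?_⟩
    · have : σ = es n i + eη n / ea n := rfl
      rw [this]; linarith [hb1.1]
    · linarith [hb2.2]
  set τ := -σ - 2 * eδ n with hτdef
  obtain ⟨hσ1, hσ2⟩ := abs_le.1 hσ
  have hτ : |τ| ≤ 2 * eη n := abs_le.2 ⟨by linarith, by linarith⟩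
  have hσ' : |σ| ≤ 2 * eη n := by linarith
  have hPσ := P_small hσ'
  have hPτ := P_small hτ
  obtain ⟨hα0, hα1⟩ := slopeE hc1 (t := σ) (by linarith)
  obtain ⟨hβ0, hβ1⟩ := slopeE hc2 (t := τ) (by linarith)
  change lin (eG n * ((j : ℝ) + 1) + σ) (eG n * ((k : ℝ) + 1) + τ) (eR n * (eP n σ - σ))
    (eP n τ - τ) ∈ _
  set α := eG n * ((j : ℝ) + 1) + σ with hα
  set β := eG n * ((k : ℝ) + 1) + τ with hβ
  have hp : |eR n * (eP n σ - σ)| ≤ eR n := by
    rw [abs_mul, abs_of_pos hR0]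
    nlinarith
  have hq : |eP n τ - τ| ≤ 1 := by linarith
  rintro ((j' | k') | (l | m))
  · obtain ⟨z, h1, h2⟩ := hitE (n := n) (eYA_ge' (n := n) (j' : ℕ)) (eYA_le j'.2.le) hσ' j j'
    refine ⟨_, mem_lin α β (eR n * (eP n σ - σ)) (eP n τ - τ) (eR n * z), ?_⟩
    change EL (eYA n j') (eK n) ((eR n * (eP n σ - σ) + α * (eR n * z)) / eR n -
      eG n * (((j' : ℕ) : ℝ) + 1) * (eR n * z / eR n)) (1 - eR n * z / eR n)
      (eδ n * ((eP n τ - τ) + β * (eR n * z)) ^ 2 / (16 * eE n ^ 2))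
    have e1 : (eR n * (eP n σ - σ) + α * (eR n * z)) / eR n = (eP n σ - σ) + α * z := by
      field_simp
    have e2 : eR n * z / eR n = z := by field_simp
    rw [e1, e2]
    refine EL_mono h1 ?_
    have h3 : |(eP n τ - τ) + β * (eR n * z)| ≤ 2 * eE n := by
      refine (abs_add_le _ _).trans ?_
      rw [abs_mul, abs_of_nonneg hβ0, abs_mul, abs_of_pos hR0]
      have h4 : β * (eR n * |z|) ≤ eG n * ea n * (eR n * 2) :=
        mul_le_mul hβ1 (mul_le_mul_of_nonneg_left h2 hR0.le)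
          (mul_nonneg hR0.le (abs_nonneg _)) (by linarith)
      have h5 : 1 ≤ eG n * ea n * eR n := by nlinarith
      rw [hEe]; nlinarith
    rw [div_le_div_iff₀ (by positivity) (by norm_num)]
    have h4 : ((eP n τ - τ) + β * (eR n * z)) ^ 2 ≤ (2 * eE n) ^ 2 := by
      rw [← sq_abs]; exact pow_le_pow_left₀ (abs_nonneg _) h3 2
    have h5 := mul_le_mul_of_nonneg_left h4 hδ0.le
    nlinarith
  · have hYB : 10 ≤ eYB n (k' : ℕ) := by
      have h1 := eYB_ge (n := n) (k' : ℕ)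
      linarith
    obtain ⟨z, h1, h2⟩ := hitE (n := n) hYB (eYB_le' k'.2.le) hτ k k'
    refine ⟨_, mem_lin α β (eR n * (eP n σ - σ)) (eP n τ - τ) z, ?_⟩
    change EL (eYB n k') (eK n) (((eP n τ - τ) + β * z) -
      eG n * (((k' : ℕ) : ℝ) + 1) * z) (1 - z)
      (eδ n * (eR n * (eP n σ - σ) + α * z) ^ 2 / (16 * eR n ^ 2))
    refine EL_mono h1 ?_
    have h3 : |eR n * (eP n σ - σ) + α * z| ≤ 2 * eR n := by
      refine (abs_add_le _ _).trans ?_
      rw [abs_mul α, abs_of_nonneg hα0]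
      have h4 : α * |z| ≤ eG n * ea n * 2 := mul_le_mul hα1 h2 (abs_nonneg _) (by linarith)
      linarith
    rw [div_le_div_iff₀ (by positivity) (by norm_num)]
    have h4 : (eR n * (eP n σ - σ) + α * z) ^ 2 ≤ (2 * eR n) ^ 2 := by
      rw [← sq_abs]; exact pow_le_pow_left₀ (abs_nonneg _) h3 2
    have h5 := mul_le_mul_of_nonneg_left h4 hδ0.le
    nlinarith
  · refine ⟨_, mem_lin α β (eR n * (eP n σ - σ)) (eP n τ - τ) (eζ n * (((l : ℕ) : ℝ) + 1)), ?_⟩
    set z := eζ n * (((l : ℕ) : ℝ) + 1) with hz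
    change ((4 * eK n * eρ n l ^ 2 - ((1 / 2 - eρ n l) * ((eR n * (eP n σ - σ) + α * z) / eR n) +
      (1 / 2 + eρ n l) * ((eP n τ - τ) + β * z)) - eD n) / eD n) ^ 2 +
      (((eP n τ - τ) + β * z) / (4 * ea n)) ^ 2 + (4 * (z - z) / eζ n) ^ 2 ≤ 1
    have hl0 : (0 : ℝ) ≤ ((l : ℕ) : ℝ) := by positivity
    have hla : ((l : ℕ) : ℝ) + 1 ≤ ea n := by
      have : ((l : ℕ) : ℝ) + 1 ≤ n := by exact_mod_cast l.2
      unfold ea; linarith
    have hz0 : 0 ≤ z := mul_nonneg hζ0.le (by linarith)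
    have hza : z ≤ eζ n * ea n := mul_le_mul_of_nonneg_left hla hζ0.le
    have hGz : eG n * ea n * z ≤ eδ n / 4 := by
      have h1 : eG n * ea n * z ≤ eG n * ea n * (eζ n * ea n) :=
        mul_le_mul_of_nonneg_left hza (by positivity)
      have h2 : eG n * ea n * (eζ n * ea n) = eδ n / 4 := by
        unfold eζ; field_simp
      rw [h2] at h1; exact h1
    have hαz0 : 0 ≤ α * z := mul_nonneg hα0 hz0
    have hβz0 : 0 ≤ β * z := mul_nonneg hβ0 hz0
    have hαz : α * z ≤ eδ n / 4 := (mul_le_mul_of_nonneg_right hα1 hz0).trans hGz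
    have hβz : β * z ≤ eδ n / 4 := (mul_le_mul_of_nonneg_right hβ1 hz0).trans hGz
    have hbl := es_bound (n := n) l.2
    have hsl : |es n l| ≤ eη n := (abs_lt.2 hbl).le
    have hρe := eρ_eq (n := n) (l : ℕ)
    have hρa : |eρ n l| ≤ 1 / 2 := by
      unfold eρ
      rw [abs_div, abs_of_pos (by linarith : 0 < 4 * eK n), div_le_iff₀ (by linarith)]
      linarith
    obtain ⟨hρ1, hρ2⟩ := abs_le.1 hρa
    have hgap : eη n / ea n ≤ |σ - es n l| := by
      rcases le_or_gt (l : ℕ) i with h | h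
      · have h1 : es n l ≤ es n i := by
          unfold es
          apply mul_le_mul_of_nonneg_left _ hη0.le
          have : ((l : ℕ) : ℝ) ≤ i := by exact_mod_cast h
          have := div_le_div_of_nonneg_right
            (by linarith : 2 * (((l : ℕ) : ℝ) + 1) ≤ 2 * ((i : ℝ) + 1)) ha0.le
          linarith
        have h2 : σ = es n i + eη n / ea n := rfl
        rw [abs_of_nonneg (by linarith)]
        linarith
      · have h1 : es n (i + 1) ≤ es n l := by
          unfold es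
          apply mul_le_mul_of_nonneg_left _ hη0.le
          have : (i : ℝ) + 1 ≤ ((l : ℕ) : ℝ) := by exact_mod_cast h
          have := div_le_div_of_nonneg_right
            (by push_cast; linarith : 2 * (((i + 1 : ℕ) : ℝ) + 1) ≤ 2 * (((l : ℕ) : ℝ) + 1))
            ha0.le
          linarith
        rw [abs_of_nonpos (by linarith)]
        linarith
    set sh := (1 / 2 - eρ n l) * (α * z / eR n) + (1 / 2 + eρ n l) * (β * z) with hsh
    have hαzR : α * z / eR n ≤ α * z := div_le_self hαz0 hR1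
    have hαzR0 : 0 ≤ α * z / eR n := div_nonneg hαz0 hR0.le
    have hsh0 : 0 ≤ sh := add_nonneg (mul_nonneg (by linarith) hαzR0)
      (mul_nonneg (by linarith) hβz0)
    have hsh1 : sh ≤ eδ n / 2 := by
      have h1 : (1 / 2 - eρ n l) * (α * z / eR n) ≤ 1 * (eδ n / 4) :=
        mul_le_mul (by linarith) (by linarith) hαzR0 (by norm_num)
      have h2 : (1 / 2 + eρ n l) * (β * z) ≤ 1 * (eδ n / 4) :=
        mul_le_mul (by linarith) hβz hβz0 (by norm_num)
      rw [hsh]; linarith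
    have hy : |(eP n τ - τ) + β * z| ≤ 1 := by
      refine (abs_add_le _ _).trans ?_
      rw [abs_of_nonneg hβz0]; linarith
    have key := hitF_aux (K := eK n) (a := ea n) (η := eη n) (δ := eδ n) (D := eD n) (σ := σ)
      (s := es n l) (ρ := eρ n l) (sh := sh) (y := (eP n τ - τ) + β * z) (by linarith) ha hη0 hη
      hδ0 (eδ_eq n) rfl hσ hsl hρe hgap hsh0 hsh1 hy
    have e1 : (1 / 2 - eρ n l) * ((eR n * (eP n σ - σ) + α * z) / eR n) +
      (1 / 2 + eρ n l) * ((eP n τ - τ) + β * z) =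
      (1 / 2 - eρ n l) * ((-(σ ^ 2 / (4 * eK n)) + eδ n) - σ) +
      (1 / 2 + eρ n l) * ((-((-σ - 2 * eδ n) ^ 2 / (4 * eK n)) + eδ n) - (-σ - 2 * eδ n)) + sh := by
      have e3 : (eR n * (eP n σ - σ) + α * z) / eR n = (eP n σ - σ) + α * z / eR n := by
        field_simp
      rw [e3, hsh, hτdef]
      unfold eP
      ring
    rw [e1, sub_self, mul_zero, zero_div]
    have : (0 : ℝ) ^ 2 = 0 := by norm_num
    rw [this, add_zero]
    exact key
  · have hw : α + β = ew n m + (eG n * (((j + k : ℕ) : ℝ) - ((m : ℕ) : ℝ)) - eδ n) := by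
      rw [hα, hβ, hτdef]; unfold ew; push_cast; ring
    have hD2 : eδ n ≤ |eG n * (((j + k : ℕ) : ℝ) - ((m : ℕ) : ℝ)) - eδ n| := by
      rcases le_or_gt (j + k) (m : ℕ) with h | h
      · have h1 : ((j + k : ℕ) : ℝ) ≤ ((m : ℕ) : ℝ) := by exact_mod_cast h
        have h2 : eG n * (((j + k : ℕ) : ℝ) - ((m : ℕ) : ℝ)) ≤ 0 :=
          mul_nonpos_of_nonneg_of_nonpos hG0.le (by linarith)
        rw [abs_of_nonpos (by linarith)]
        linarith
      · have h1 : ((m : ℕ) : ℝ) + 1 ≤ ((j + k : ℕ) : ℝ) := by exact_mod_cast h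
        have h2 : eG n * 1 ≤ eG n * (((j + k : ℕ) : ℝ) - ((m : ℕ) : ℝ)) :=
          mul_le_mul_of_nonneg_left (by linarith) hG0.le
        rw [abs_of_nonneg (by linarith)]
        linarith
    obtain ⟨z, h1⟩ := hitH (m := (m : ℕ)) hp hq hα0 hα1 hw hD2
    exact ⟨_, mem_lin α β (eR n * (eP n σ - σ)) (eP n τ - τ) z, h1⟩

end Pool.Agent.H44.TE
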