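import Pool.Agent.H44.TB.Cnt

set_option autoImplicit false

/-!
# [H44 TE Def] Pairwise disjoint ellipsoids (MP_ce02af_co)

`a = n + 1`, `η = 1 / (1024 a²)`, `Λ = 8 a`, `κ = 2000000 a² Λ^(2n) / η`, `K = κ²`, `G = 8 K`,
`δ = η² / (32 K a²)`, `YB_k = 100 a Λ^k`, `YA_j = 20000 a² κ Λ^n / η Λ^j` (so `K = 100 YA_n`),
`R = 16 G a`, `E = 2 G a R`, `ζ = δ / (4 G a²)`, `D₀ = η² / K`.
Planar: `EL Y K g u c`: `Y u² + (K - Y) / Y² (g - Y u)² + c ≤ g`, an ellipse which touches `g = 0` at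
`u = 0` with curvature `2 K` and whose long axis is `g = Y u`, `0 ≤ u ≤ 1`.
-/

namespace Pool.Agent.H44.TE

open Pool.Agent.H44.TB

/-- `a = n + 1`. -/
noncomputable def ea (n : ℕ) : ℝ := n + 1
/-- `η = 1 / (1024 a²)`. -/
noncomputable def eη (n : ℕ) : ℝ := 1 / (1024 * ea n ^ 2)
/-- `Λ = 8 a`. -/
noncomputable def eΛ (n : ℕ) : ℝ := 8 * ea n
/-- `κ = 2000000 a² Λ^(2n) / η`. -/
noncomputable def eκ (n : ℕ) : ℝ := 2000000 * ea n ^ 2 * eΛ n ^ (2 * n) / eη n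
/-- `K = κ²`. -/
noncomputable def eK (n : ℕ) : ℝ := eκ n ^ 2
/-- `δ = η² / (32 K a²)`. -/
noncomputable def eδ (n : ℕ) : ℝ := eη n ^ 2 / (32 * eK n * ea n ^ 2)
/-- `G = 8 K`. -/
noncomputable def eG (n : ℕ) : ℝ := 8 * eK n
/-- `YB_k = 100 a Λ^k`. -/
noncomputable def eYB (n k : ℕ) : ℝ := 100 * ea n * eΛ n ^ k
/-- `YA_j = 20000 a² κ Λ^n / η Λ^j`. -/
noncomputable def eYA (n j : ℕ) : ℝ := 20000 * ea n ^ 2 * eκ n * eΛ n ^ n / eη n * eΛ n ^ j
/-- `R = 16 G a`. -/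
noncomputable def eR (n : ℕ) : ℝ := 16 * eG n * ea n
/-- `E = 2 G a R`. -/
noncomputable def eE (n : ℕ) : ℝ := 2 * eG n * ea n * eR n
/-- `ζ = δ / (4 G a²)`. -/
noncomputable def eζ (n : ℕ) : ℝ := eδ n / (4 * eG n * ea n ^ 2)
/-- `D₀ = η² / K`. -/
noncomputable def eD (n : ℕ) : ℝ := eη n ^ 2 / eK n
/-- `C_m`. -/
noncomputable def eC (n m : ℕ) : ℝ :=
  1000 * eG n * ea n * eR n * eYA n n / eδ n * (1 + 8 * eG n / eδ n) ^ m
/-- `w_m = G (m + 2) - δ`. -/
noncomputable def ew (n m : ℕ) : ℝ := eG n * (m + 2) - eδ n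
/-- `σ_l = η (2 (l + 1) / a - 1)`. -/
noncomputable def es (n l : ℕ) : ℝ := eη n * (2 * (l + 1) / ea n - 1)
/-- `ρ_l = σ_l / (4 K)`. -/
noncomputable def eρ (n l : ℕ) : ℝ := es n l / (4 * eK n)

/-- The planar ellipses, with a third term `c`. -/
def EL (Y K g u c : ℝ) : Prop := Y * u ^ 2 + (K - Y) / Y ^ 2 * (g - Y * u) ^ 2 + c ≤ g

/-- The ellipsoids `A_j`. -/
def sA (n j : ℕ) : Set E3 :=
  {x | EL (eYA n j) (eK n) (x 0 / eR n - eG n * (j + 1) * (x 2 / eR n)) (1 - x 2 / eR n)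
    (eδ n * (x 1) ^ 2 / (16 * eE n ^ 2))}
/-- The ellipsoids `B_k`. -/
def sB (n k : ℕ) : Set E3 :=
  {x | EL (eYB n k) (eK n) (x 1 - eG n * (k + 1) * x 2) (1 - x 2)
    (eδ n * (x 0) ^ 2 / (16 * eR n ^ 2))}
/-- The ellipsoids `F_l`. -/
def sF (n l : ℕ) : Set E3 :=
  {x | ((4 * eK n * eρ n l ^ 2 - ((1 / 2 - eρ n l) * (x 0 / eR n) + (1 / 2 + eρ n l) * x 1) -
      eD n) / eD n) ^ 2 + (x 1 / (4 * ea n)) ^ 2 + (4 * (x 2 - eζ n * (l + 1)) / eζ n) ^ 2 ≤ 1}
/-- The ellipsoids `H_m`. -/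
def sH (n m : ℕ) : Set E3 :=
  {x | (x 0 + x 1 - eC n m - ew n m * x 2) ^ 2 + (x 2 / (4 * eC n m / eδ n)) ^ 2 +
    (x 0 / (16 * eG n * ea n * eC n m / eδ n)) ^ 2 ≤ 1}

/-- The family. -/
def efam (n M : ℕ) : Idx n M → Set E3
  | Sum.inl (Sum.inl j) => sA n j
  | Sum.inl (Sum.inr k) => sB n k
  | Sum.inr (Sum.inl l) => sF n l
  | Sum.inr (Sum.inr m) => sH n m

variable {n M : ℕ}

theorem ea_ge (hn : 2 ≤ n) : 3 ≤ ea n := by
  have : (2 : ℝ) ≤ n := by exact_mod_cast hn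
  unfold ea; linarith
theorem ea_one : 1 ≤ ea n := by
  have : (0 : ℝ) ≤ n := Nat.cast_nonneg n
  unfold ea; linarith
theorem ea_pos : 0 < ea n := by linarith [ea_one (n := n)]
theorem eη_pos : 0 < eη n := by
  have := ea_pos (n := n)
  unfold eη; positivity
/-- `1024 a² η = 1`. -/
theorem eη_eq (n : ℕ) : 1024 * ea n ^ 2 * eη n = 1 := by
  have := ea_pos (n := n)
  unfold eη; field_simp
theorem eη_le : eη n ≤ 1 / 1024 := by
  have h := ea_one (n := n)
  unfold eη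
  apply one_div_le_one_div_of_le (by norm_num)
  nlinarith
theorem eΛ_ge : 8 ≤ eΛ n := by
  have := ea_one (n := n)
  unfold eΛ; linarith
theorem eΛ_pow (k : ℕ) : 1 ≤ eΛ n ^ k := one_le_pow₀ (by linarith [eΛ_ge (n := n)])
theorem eκ_ge : 2000000 ≤ eκ n := by
  have h1 := ea_one (n := n)
  have h2 := eΛ_pow (n := n) (2 * n)
  have h3 := eη_pos (n := n)
  have h4 := eη_le (n := n)
  have h5 : 1 ≤ ea n ^ 2 := one_le_pow₀ h1
  unfold eκ
  rw [le_div_iff₀ h3]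
  have h6 : 1 ≤ ea n ^ 2 * eΛ n ^ (2 * n) := one_le_mul_of_one_le_of_one_le h5 h2
  nlinarith
theorem eK_ge : 1000000 ≤ eK n := by
  have := eκ_ge (n := n)
  unfold eK; nlinarith
theorem eK_pos : 0 < eK n := by linarith [eK_ge (n := n)]
theorem eδ_pos : 0 < eδ n := by
  have := ea_pos (n := n)
  have := eη_pos (n := n)
  have := eK_pos (n := n)
  unfold eδ; positivity
/-- `32 K a² δ = η²`. -/
theorem eδ_eq (n : ℕ) : 32 * eK n * ea n ^ 2 * eδ n = eη n ^ 2 := by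
  have := ea_pos (n := n)
  have := eK_pos (n := n)
  unfold eδ; field_simp
/-- `32 η³ = K δ`. -/
theorem eη3 (n : ℕ) : 32 * eη n ^ 3 = eK n * eδ n := by
  have h1 := eδ_eq n
  have h2 := eη_eq n
  have h3 : ea n ^ 2 ≠ 0 := (pow_pos (ea_pos (n := n)) 2).ne'
  have h4 : ea n ^ 2 * (32 * eη n ^ 3) = ea n ^ 2 * (eK n * eδ n) := by
    calc ea n ^ 2 * (32 * eη n ^ 3) = eη n ^ 2 * (1024 * ea n ^ 2 * eη n) / 32 := by ring
      _ = eη n ^ 2 / 32 := by rw [h2]; ring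
      _ = _ := by rw [← h1]; ring
  exact mul_left_cancel₀ h3 h4
theorem eδ_le : eδ n ≤ 1 / 1000 := by
  have h1 := eη3 n
  have h2 := eη_le (n := n)
  have h3 := eη_pos (n := n)
  have h4 := eK_ge (n := n)
  have h5 : eη n ^ 3 ≤ 1 := pow_le_one₀ h3.le (by linarith)
  have h6 := eδ_pos (n := n)
  nlinarith
theorem eG_eq (n : ℕ) : eG n = 8 * eK n := rfl
theorem eG_ge : 8000000 ≤ eG n := by
  have := eK_ge (n := n)
  unfold eG; linarith
theorem eG_pos : 0 < eG n := by linarith [eG_ge (n := n)]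
theorem eYB_pos (k : ℕ) : 0 < eYB n k := by
  have := ea_pos (n := n)
  have := eΛ_ge (n := n)
  have : 0 < eΛ n := by linarith
  unfold eYB; positivity
theorem eYB_ge (k : ℕ) : 100 * ea n ≤ eYB n k := by
  have h1 := ea_pos (n := n)
  unfold eYB
  exact le_mul_of_one_le_right (by positivity) (eΛ_pow k)
theorem eYA_pos (j : ℕ) : 0 < eYA n j := by
  have := ea_pos (n := n)
  have := eΛ_ge (n := n)
  have : 0 < eΛ n := by linarith
  have := eκ_ge (n := n)
  have : 0 < eκ n := by linarith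
  have := eη_pos (n := n)
  unfold eYA; positivity
/-- `K = 100 YA_n`. -/
theorem eK_eq (n : ℕ) : eK n = 100 * eYA n n := by
  have h := eη_pos (n := n)
  have h2 : eκ n = 2000000 * ea n ^ 2 * eΛ n ^ (2 * n) / eη n := rfl
  unfold eYA
  have e : eΛ n ^ (2 * n) = eΛ n ^ n * eΛ n ^ n := by rw [two_mul, pow_add]
  calc eK n = eκ n * eκ n := by unfold eK; ring
    _ = eκ n * (2000000 * ea n ^ 2 * (eΛ n ^ n * eΛ n ^ n) / eη n) := by rw [← e, ← h2]
    _ = _ := by ring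
theorem eYA_le {j : ℕ} (hj : j ≤ n) : 100 * eYA n j ≤ eK n := by
  rw [eK_eq]
  have h1 : eΛ n ^ j ≤ eΛ n ^ n := pow_le_pow_right₀ (by linarith [eΛ_ge (n := n)]) hj
  have h2 : 0 ≤ 20000 * ea n ^ 2 * eκ n * eΛ n ^ n / eη n := by
    have := ea_pos (n := n)
    have := eΛ_ge (n := n)
    have : 0 < eΛ n := by linarith
    have := eκ_ge (n := n)
    have : 0 < eκ n := by linarith
    have := eη_pos (n := n)
    positivity
  have h3 := mul_le_mul_of_nonneg_left h1 h2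
  unfold eYA
  linarith
/-- `YA_j ≥ 200 a κ YB_n / η`. -/
theorem eYA_ge (j : ℕ) : 200 * ea n * eκ n * eYB n n / eη n ≤ eYA n j := by
  have := ea_pos (n := n)
  have h8 := eΛ_ge (n := n)
  have : 0 < eΛ n := by linarith
  have := eκ_ge (n := n)
  have : 0 < eκ n := by linarith
  have := eη_pos (n := n)
  have h2 : 0 ≤ 20000 * ea n ^ 2 * eκ n * eΛ n ^ n / eη n := by positivity
  have e : 200 * ea n * eκ n * eYB n n / eη n = 20000 * ea n ^ 2 * eκ n * eΛ n ^ n / eη n := by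
    unfold eYB; ring
  rw [e]
  unfold eYA
  exact le_mul_of_one_le_right h2 (eΛ_pow j)
theorem eYB_le {k : ℕ} (hk : k ≤ n) (j : ℕ) : eYB n k ≤ eYA n j := by
  refine le_trans ?_ (eYA_ge j)
  have h1 : eΛ n ^ k ≤ eΛ n ^ n := pow_le_pow_right₀ (by linarith [eΛ_ge (n := n)]) hk
  have ha := ea_one (n := n)
  have h2 : eYB n k ≤ eYB n n := by
    unfold eYB
    exact mul_le_mul_of_nonneg_left h1 (by positivity)
  have hκ := eκ_ge (n := n)
  have hη := eη_pos (n := n)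
  have hη1 := eη_le (n := n)
  have h3 := eYB_pos (n := n) n
  rw [le_div_iff₀ hη]
  have h4 : eYB n k * eη n ≤ eYB n n * 1 :=
    mul_le_mul h2 (by linarith) hη.le h3.le
  have h5 : 1 * eYB n n ≤ 200 * ea n * eκ n * eYB n n := by
    apply mul_le_mul_of_nonneg_right _ h3.le
    nlinarith
  linarith
theorem eYB_le' {k : ℕ} (hk : k ≤ n) : 100 * eYB n k ≤ eK n := by
  have h1 := eYB_le (n := n) hk n
  rw [eK_eq]; linarith
theorem eYA_ge' (j : ℕ) : 10 ≤ eYA n j := by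
  have h1 := eYB_le (n := n) (k := 0) (Nat.zero_le n) j
  have h2 := eYB_ge (n := n) 0
  have := ea_one (n := n)
  linarith
theorem eR_pos : 0 < eR n := by
  have := ea_pos (n := n)
  have := eG_pos (n := n)
  unfold eR; positivity
theorem eE_pos : 0 < eE n := by
  have := ea_pos (n := n)
  have := eG_pos (n := n)
  have := eR_pos (n := n)
  unfold eE; positivity
theorem eζ_pos : 0 < eζ n := by
  have := ea_pos (n := n)
  have := eG_pos (n := n)
  have := eδ_pos (n := n)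
  unfold eζ; positivity
theorem eD_pos : 0 < eD n := by
  have := eη_pos (n := n)
  have := eK_pos (n := n)
  unfold eD; positivity
/-- `D₀ = 32 a² δ`. -/
theorem eD_eq (n : ℕ) : eD n = 32 * ea n ^ 2 * eδ n := by
  have h := eδ_eq n
  have h2 := eK_pos (n := n)
  unfold eD
  rw [← h]; field_simp
theorem eC_pos (m : ℕ) : 0 < eC n m := by
  have := ea_pos (n := n)
  have := eG_pos (n := n)
  have := eR_pos (n := n)
  have := eδ_pos (n := n)
  have := eYA_pos (n := n) n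
  unfold eC; positivity
theorem eC_ge (m : ℕ) : 1000 * eG n * ea n * eR n * eYA n n / eδ n ≤ eC n m := by
  have := ea_pos (n := n)
  have := eG_pos (n := n)
  have := eR_pos (n := n)
  have := eδ_pos (n := n)
  have := eYA_pos (n := n) n
  have h : 1 ≤ (1 + 8 * eG n / eδ n) ^ m :=
    one_le_pow₀ (by have : 0 ≤ 8 * eG n / eδ n := by positivity
                    linarith)
  unfold eC
  exact le_mul_of_one_le_right (by positivity) h
theorem es_bound {l : ℕ} (hl : l < n) : -eη n < es n l ∧ es n l < eη n := by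
  have h1 := ea_pos (n := n)
  have h2 := eη_pos (n := n)
  have h3 : (l : ℝ) + 1 ≤ n := by exact_mod_cast hl
  have h4 : 0 < 2 * ((l : ℝ) + 1) / ea n := by positivity
  have h5 : 2 * ((l : ℝ) + 1) / ea n < 2 := by
    rw [div_lt_iff₀ h1]; unfold ea; linarith
  constructor
  · unfold es; nlinarith
  · unfold es; nlinarith
theorem es_succ (l : ℕ) : es n (l + 1) = es n l + 2 * eη n / ea n := by
  have := ea_pos (n := n)
  unfold es; push_cast; field_simp; ring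
theorem eρ_eq (l : ℕ) : 4 * eK n * eρ n l = es n l := by
  have := eK_pos (n := n)
  unfold eρ; field_simp

end Pool.Agent.H44.TE
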