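import Pool.Agent.H44.TE.Pla

set_option autoImplicit false

/-!
# [H44 TE DisH] The ellipsoids `H_m` are disjoint from each other and from the others (MP_ce02af_co)

On `H_m`: `|x + y - C_m - w_m z| ≤ 1`, `|z| ≤ 4 C_m / δ`. Elsewhere (`A_j`, `B_k`, `F_l`): `z ≥ -R`,
`|x + y|` at most `R (2 YA_n + 2 G a) + E (1 + 32 YA_n / δ)` or so; `C_m ≥ 1000 G a R YA_n / δ`, `E = 2 G a R`,
`w_m ≤ 2 G (n + 3) ≤ 6 G a`; on `A_j` even `z ≥ -R YA_j / (3 K) ≥ -R / 300` (`pl_box`), on `B_k` `z ≥ -1`, on `F_l`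
`z ≥ 0`. H/H': Bernoulli `one_add_mul_le_pow` for `(1 + 8 G / δ)^d`.
-/

namespace Pool.Agent.H44.TE

open Pool.Agent.H44.TB

variable {n : ℕ}

/-- `T = G a R YA_n / δ`. -/
noncomputable def eT (n : ℕ) : ℝ := eG n * ea n * eR n * eYA n n / eδ n

theorem eT_mul (n : ℕ) : eT n * eδ n = eG n * ea n * eR n * eYA n n := by
  have := eδ_pos (n := n)
  unfold eT; field_simp

theorem eR_ge : 1 ≤ eR n := by
  have h1 := ea_one (n := n)
  have h2 := eG_ge (n := n)
  unfold eR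
  nlinarith

theorem eC_ge_T (m : ℕ) : 1000 * eT n ≤ eC n m := by
  have h := eC_ge (n := n) m
  have e : 1000 * eT n = 1000 * eG n * ea n * eR n * eYA n n / eδ n := by unfold eT; ring
  rw [e]; exact h

/-- the quotient `R YA_n / δ` -/
theorem eT_q : eR n * (eYA n n / eδ n) ≤ eT n := by
  have h1 := ea_one (n := n)
  have h2 := eG_ge (n := n)
  have h3 := eR_pos (n := n)
  have h4 := eYA_pos (n := n) n
  have h5 := eδ_pos (n := n)
  have e : eT n = (eG n * ea n) * (eR n * (eYA n n / eδ n)) := by unfold eT; ring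
  rw [e]
  have h6 : 1 ≤ eG n * ea n := by nlinarith
  exact le_mul_of_one_le_left (by positivity) h6

theorem eYAδ : 10 ≤ eYA n n / eδ n := by
  have h4 := eYA_ge' (n := n) n
  have h5 := eδ_pos (n := n)
  have h6 := eδ_le (n := n)
  rw [le_div_iff₀ h5]
  nlinarith

theorem eT_GaR : 10 * (eG n * ea n * eR n) ≤ eT n := by
  have h1 := ea_pos (n := n)
  have h2 := eG_pos (n := n)
  have h3 := eR_pos (n := n)
  have e : eT n = eG n * ea n * eR n * (eYA n n / eδ n) := by unfold eT; ring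
  rw [e, mul_comm 10]
  exact mul_le_mul_of_nonneg_left eYAδ (by positivity)

theorem eT_RY : eR n * eYA n n ≤ eT n := by
  refine le_trans ?_ (eT_q (n := n))
  have h3 := eR_pos (n := n)
  have h4 := eYA_pos (n := n) n
  have h5 := eδ_pos (n := n)
  have h6 := eδ_le (n := n)
  refine mul_le_mul_of_nonneg_left ?_ h3.le
  rw [le_div_iff₀ h5]
  nlinarith

theorem eT_one : 1 ≤ eT n := by
  have h1 := ea_one (n := n)
  have h2 := eG_ge (n := n)
  have h3 := eR_ge (n := n)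
  have h4 := eT_GaR (n := n)
  have h5 : 1 ≤ eG n * ea n := by nlinarith
  have h6 : 1 ≤ eG n * ea n * eR n := one_le_mul_of_one_le_of_one_le h5 h3
  linarith

theorem ew_bd {m : ℕ} (hm : m < 2 * n + 4) : 0 ≤ ew n m ∧ ew n m ≤ 5 * (eG n * ea n) := by
  have h2 := eG_ge (n := n)
  have h5 := eδ_pos (n := n)
  have h6 := eδ_le (n := n)
  have h7 : (m : ℝ) + 1 ≤ 2 * n + 4 := by exact_mod_cast hm
  have h8 : (0 : ℝ) ≤ m := Nat.cast_nonneg m
  have h9 : (0 : ℝ) ≤ n := Nat.cast_nonneg n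
  unfold ew ea
  constructor
  · nlinarith
  · have h10 : eG n * (m + 2) ≤ eG n * (5 * (n + 1)) :=
      mul_le_mul_of_nonneg_left (by linarith) (by linarith)
    linarith

/-- Points with small `x + y` and `z ≥ -R` are not in `H_m`. -/
theorem not_H {m : ℕ} (hm : m < 2 * n + 4) {x : E3} (h1 : x 0 + x 1 ≤ 500 * eT n)
    (h2 : -eR n ≤ x 2) : x ∉ sH n m := by
  intro hx
  have hx' : (x 0 + x 1 - eC n m - ew n m * x 2) ^ 2 + (x 2 / (4 * eC n m / eδ n)) ^ 2 +
    (x 0 / (16 * eG n * ea n * eC n m / eδ n)) ^ 2 ≤ 1 := hx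
  have h3 := sq_nonneg (x 2 / (4 * eC n m / eδ n))
  have h4 := sq_nonneg (x 0 / (16 * eG n * ea n * eC n m / eδ n))
  have hC := eC_ge_T (n := n) m
  have hT := eT_one (n := n)
  obtain ⟨hw0, hw1⟩ := ew_bd hm
  have hR := eR_pos (n := n)
  have hG := eT_GaR (n := n)
  have h5 : ew n m * (-eR n) ≤ ew n m * x 2 := mul_le_mul_of_nonneg_left h2 hw0
  have h6 : ew n m * eR n ≤ 5 * (eG n * ea n) * eR n := mul_le_mul_of_nonneg_right hw1 hR.le
  have h7 : x 0 + x 1 - eC n m - ew n m * x 2 ≤ -2 := by linarith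
  nlinarith

theorem disj_HH {m m' : ℕ} (h : m < m') : Disjoint (sH n m) (sH n m') := by
  rw [Set.disjoint_left]
  intro x hx hx'
  have hx1 : (x 0 + x 1 - eC n m - ew n m * x 2) ^ 2 + (x 2 / (4 * eC n m / eδ n)) ^ 2 +
    (x 0 / (16 * eG n * ea n * eC n m / eδ n)) ^ 2 ≤ 1 := hx
  have hx2 : (x 0 + x 1 - eC n m' - ew n m' * x 2) ^ 2 + (x 2 / (4 * eC n m' / eδ n)) ^ 2 +
    (x 0 / (16 * eG n * ea n * eC n m' / eδ n)) ^ 2 ≤ 1 := hx'
  have hC := eC_pos (n := n) m
  have hCT := eC_ge_T (n := n) m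
  have hT := eT_one (n := n)
  have hG := eG_ge (n := n)
  have hδ := eδ_pos (n := n)
  have hδ1 := eδ_le (n := n)
  obtain ⟨d, rfl⟩ : ∃ d, m' = m + d := ⟨m' - m, by omega⟩
  have hd : 1 ≤ d := by omega
  have hd' : (1 : ℝ) ≤ d := by exact_mod_cast hd
  have h1 := sq_nonneg (x 2 / (4 * eC n m / eδ n))
  have h2 := sq_nonneg (x 0 / (16 * eG n * ea n * eC n m / eδ n))
  have h3 := sq_nonneg (x 2 / (4 * eC n (m + d) / eδ n))
  have h4 := sq_nonneg (x 0 / (16 * eG n * ea n * eC n (m + d) / eδ n))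
  have h5 := sq_nonneg (x 0 + x 1 - eC n m - ew n m * x 2)
  have h6 : |x 0 + x 1 - eC n m - ew n m * x 2| ≤ 1 := by
    rw [← sq_le_one_iff_abs_le_one]; linarith
  have h7 : |x 0 + x 1 - eC n (m + d) - ew n (m + d) * x 2| ≤ 1 := by
    rw [← sq_le_one_iff_abs_le_one]; linarith
  have h8 : |x 2 / (4 * eC n m / eδ n)| ≤ 1 := by
    rw [← sq_le_one_iff_abs_le_one]; linarith
  rw [abs_le] at h6 h7 h8
  have hq : 0 < 4 * eC n m / eδ n := by positivity
  have h9 : -(4 * eC n m / eδ n) ≤ x 2 := by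
    have := h8.1
    rw [le_div_iff₀ hq] at this
    linarith
  have hw : ew n (m + d) = ew n m + eG n * d := by unfold ew; push_cast; ring
  have hCC : eC n (m + d) = eC n m * (1 + 8 * eG n / eδ n) ^ d := by
    unfold eC; rw [pow_add]; ring
  have hb : 1 + (d : ℝ) * (8 * eG n / eδ n) ≤ (1 + 8 * eG n / eδ n) ^ d := by
    apply one_add_mul_le_pow
    have : 0 ≤ 8 * eG n / eδ n := by positivity
    linarith
  have hb2 := mul_le_mul_of_nonneg_left hb hC.le
  rw [← hCC] at hb2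
  have h10 : eG n * d * (-(4 * eC n m / eδ n)) ≤ eG n * d * x 2 :=
    mul_le_mul_of_nonneg_left h9 (by positivity)
  have e1 : eC n m * (1 + (d : ℝ) * (8 * eG n / eδ n)) = eC n m + 8 * (eG n * d * (eC n m / eδ n)) := by
    ring
  have e2 : eG n * d * (-(4 * eC n m / eδ n)) = -(4 * (eG n * d * (eC n m / eδ n))) := by ring
  rw [e1] at hb2
  rw [e2] at h10
  rw [hw] at h7
  have h11 : 1 ≤ eC n m / eδ n := by
    rw [le_div_iff₀ hδ]; nlinarith
  have h12 : 1 ≤ eG n * d := by nlinarith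
  have h13 : 1 ≤ eG n * d * (eC n m / eδ n) := one_le_mul_of_one_le_of_one_le h12 h11
  have e3 : (ew n m + eG n * d) * x 2 = ew n m * x 2 + eG n * d * x 2 := by ring
  rw [e3] at h7
  linarith [h6.1, h6.2, h7.1, h7.2]

theorem eYA_mono {j : ℕ} (hj : j ≤ n) : eYA n j ≤ eYA n n := by
  have := eYA_le (n := n) hj
  rw [eK_eq] at this
  linarith

/-- `y² ≤ E² t`, `t ≥ 1` gives `y ≤ E t` -/
theorem le_of_sq_le_mul {y E t : ℝ} (hE : 0 ≤ E) (ht : 1 ≤ t) (h : y ^ 2 ≤ E ^ 2 * t) :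
    y ≤ E * t := by
  have h1 : y ^ 2 ≤ (E * t) ^ 2 := by
    have : E ^ 2 * t ≤ E ^ 2 * (t * t) := mul_le_mul_of_nonneg_left (by nlinarith) (by positivity)
    nlinarith
  exact le_of_sq_le_sq h1 (by positivity)

theorem disj_HA {m j : ℕ} (hm : m < 2 * n + 4) (hj : j < n) : Disjoint (sH n m) (sA n j) := by
  rw [Set.disjoint_right]
  intro x hx
  have hx' : EL (eYA n j) (eK n) (x 0 / eR n - eG n * (j + 1) * (x 2 / eR n)) (1 - x 2 / eR n)
    (eδ n * (x 1) ^ 2 / (16 * eE n ^ 2)) := hx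
  have hR := eR_pos (n := n)
  have hE := eE_pos (n := n)
  have hδ := eδ_pos (n := n)
  have hG := eG_pos (n := n)
  have ha := ea_pos (n := n)
  have hY := eYA_ge' (n := n) j
  have hK := eYA_le (n := n) hj.le
  have hYn := eYA_mono (n := n) hj.le
  have hKp := eK_pos (n := n)
  obtain ⟨_, h2, h3, _, h5, h6⟩ := pl_box hY hK (by positivity) hx'
  have hyk : eYA n j / (3 * eK n) ≤ 1 / 300 := by
    rw [div_le_div_iff₀ (by positivity) (by norm_num)]
    linarith
  have hz1 : -(1 / 300) ≤ x 2 / eR n := by linarith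
  have hz2 : x 2 / eR n ≤ 2 := by linarith
  rw [le_div_iff₀ hR] at hz1
  have hz3 := (div_le_iff₀ hR).1 hz2
  refine not_H hm ?_ (by linarith)
  -- x
  have hj1 : (j : ℝ) + 1 ≤ ea n := by
    have : (j : ℝ) ≤ n := by exact_mod_cast hj.le
    unfold ea; linarith
  have hj0 : (0 : ℝ) ≤ j := Nat.cast_nonneg j
  have hg1 : eG n * (j + 1) * (x 2 / eR n) ≤ eG n * ea n * 2 := by
    have h7 : eG n * ((j : ℝ) + 1) * (x 2 / eR n) ≤ eG n * (j + 1) * 2 :=
      mul_le_mul_of_nonneg_left hz2 (by positivity)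
    have h8 : eG n * ((j : ℝ) + 1) * 2 ≤ eG n * ea n * 2 := by
      have := mul_le_mul_of_nonneg_left hj1 hG.le
      linarith
    linarith
  have hx0 : x 0 / eR n ≤ 2 * eYA n n + eG n * ea n * 2 := by linarith
  rw [div_le_iff₀ hR] at hx0
  have hT1 := eT_RY (n := n)
  have hT2 := eT_GaR (n := n)
  -- y
  have hT0 := eT_one (n := n)
  have ht := eYAδ (n := n)
  have hy : (x 1) ^ 2 ≤ eE n ^ 2 * (32 * (eYA n n / eδ n)) := by
    have h7 : eδ n * (x 1) ^ 2 / (16 * eE n ^ 2) ≤ 2 * eYA n n := by linarith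
    rw [div_le_iff₀ (by positivity)] at h7
    have e : eE n ^ 2 * (32 * (eYA n n / eδ n)) = 2 * eYA n n * (16 * eE n ^ 2) / eδ n := by ring
    rw [e, le_div_iff₀ hδ]
    linarith
  have hy1 := le_of_sq_le_mul hE.le (by linarith) hy
  have e3 : eE n * (32 * (eYA n n / eδ n)) = 64 * eT n := by unfold eT eE; ring
  rw [e3] at hy1
  nlinarith

theorem disj_HB {m k : ℕ} (hm : m < 2 * n + 4) (hk : k < n) : Disjoint (sH n m) (sB n k) := by
  rw [Set.disjoint_right]
  intro x hx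
  have hx' : EL (eYB n k) (eK n) (x 1 - eG n * (k + 1) * x 2) (1 - x 2)
    (eδ n * (x 0) ^ 2 / (16 * eR n ^ 2)) := hx
  have hR := eR_pos (n := n)
  have hR1 := eR_ge (n := n)
  have hδ := eδ_pos (n := n)
  have hG := eG_pos (n := n)
  have ha := ea_pos (n := n)
  have ha1 := ea_one (n := n)
  have hY0 := eYB_ge (n := n) k
  have hY : 10 ≤ eYB n k := by linarith
  have hK := eYB_le' (n := n) hk.le
  have hYn := eYB_le (n := n) hk.le n
  have hKp := eK_pos (n := n)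
  obtain ⟨_, h2, h3, _, h5, h6⟩ := pl_box hY hK (by positivity) hx'
  have hyk : eYB n k / (3 * eK n) ≤ 1 / 300 := by
    rw [div_le_div_iff₀ (by positivity) (by norm_num)]
    linarith
  refine not_H hm ?_ (by linarith)
  have hj1 : (k : ℝ) + 1 ≤ ea n := by
    have : (k : ℝ) ≤ n := by exact_mod_cast hk.le
    unfold ea; linarith
  have hj0 : (0 : ℝ) ≤ k := Nat.cast_nonneg k
  have hg1 : eG n * (k + 1) * x 2 ≤ eG n * ea n * 2 := by
    have h7 : eG n * ((k : ℝ) + 1) * x 2 ≤ eG n * (k + 1) * 2 :=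
      mul_le_mul_of_nonneg_left (by linarith) (by positivity)
    have h8 : eG n * ((k : ℝ) + 1) * 2 ≤ eG n * ea n * 2 := by
      have := mul_le_mul_of_nonneg_left hj1 hG.le
      linarith
    linarith
  have hT1 := eT_RY (n := n)
  have hT2 := eT_GaR (n := n)
  have hT3 := eT_q (n := n)
  have hYp := eYA_pos (n := n) n
  have hT4 : eYA n n ≤ eR n * eYA n n := le_mul_of_one_le_left hYp.le hR1
  have hT5 : eG n * ea n ≤ eG n * ea n * eR n := le_mul_of_one_le_right (by positivity) hR1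
  have hT0 := eT_one (n := n)
  have ht := eYAδ (n := n)
  have hy : (x 0) ^ 2 ≤ eR n ^ 2 * (32 * (eYA n n / eδ n)) := by
    have h7 : eδ n * (x 0) ^ 2 / (16 * eR n ^ 2) ≤ 2 * eYA n n := by linarith
    rw [div_le_iff₀ (by positivity)] at h7
    have e : eR n ^ 2 * (32 * (eYA n n / eδ n)) = 2 * eYA n n * (16 * eR n ^ 2) / eδ n := by ring
    rw [e, le_div_iff₀ hδ]
    linarith
  have hy1 := le_of_sq_le_mul hR.le (by linarith) hy
  have hG1 : 0 < eG n * ea n := by positivity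
  linarith

theorem disj_HF {m l : ℕ} (hm : m < 2 * n + 4) (hl : l < n) : Disjoint (sH n m) (sF n l) := by
  rw [Set.disjoint_right]
  intro x hx
  have hx' : ((4 * eK n * eρ n l ^ 2 - ((1 / 2 - eρ n l) * (x 0 / eR n) + (1 / 2 + eρ n l) * x 1) -
      eD n) / eD n) ^ 2 + (x 1 / (4 * ea n)) ^ 2 + (4 * (x 2 - eζ n * (l + 1)) / eζ n) ^ 2 ≤ 1 := hx
  have hR := eR_pos (n := n)
  have hR1 := eR_ge (n := n)
  have hζ := eζ_pos (n := n)
  have hD := eD_pos (n := n)
  have ha := ea_pos (n := n)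
  have ha1 := ea_one (n := n)
  have hG := eG_ge (n := n)
  have hK := eK_ge (n := n)
  have hη := eη_le (n := n)
  have hη0 := eη_pos (n := n)
  obtain ⟨hs1, hs2⟩ := es_bound (n := n) hl
  have hρe := eρ_eq (n := n) l
  have hl0 : (0 : ℝ) ≤ l := Nat.cast_nonneg l
  have q1 := sq_nonneg ((4 * eK n * eρ n l ^ 2 - ((1 / 2 - eρ n l) * (x 0 / eR n) +
    (1 / 2 + eρ n l) * x 1) - eD n) / eD n)
  have q2 := sq_nonneg (x 1 / (4 * ea n))
  have q3 := sq_nonneg (4 * (x 2 - eζ n * (l + 1)) / eζ n)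
  have b1 : |(4 * eK n * eρ n l ^ 2 - ((1 / 2 - eρ n l) * (x 0 / eR n) +
    (1 / 2 + eρ n l) * x 1) - eD n) / eD n| ≤ 1 := by
    rw [← sq_le_one_iff_abs_le_one]; linarith
  have b2 : |x 1 / (4 * ea n)| ≤ 1 := by
    rw [← sq_le_one_iff_abs_le_one]; linarith
  have b3 : |4 * (x 2 - eζ n * (l + 1)) / eζ n| ≤ 1 := by
    rw [← sq_le_one_iff_abs_le_one]; linarith
  rw [abs_le] at b1 b2 b3
  have c1 := b1.1
  rw [le_div_iff₀ hD] at c1
  have c2 := b2.1
  rw [le_div_iff₀ (by positivity)] at c2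
  have c2' := b2.2
  rw [div_le_iff₀ (by positivity)] at c2'
  have c3 := b3.1
  rw [le_div_iff₀ hζ] at c3
  have hz : 0 ≤ x 2 := by
    have : 0 ≤ eζ n * l := by positivity
    nlinarith
  refine not_H hm ?_ (by linarith)
  have hρ1 : |eρ n l| ≤ 1 / 4 := by
    rw [abs_le]
    constructor
    · by_contra hc
      push Not at hc
      nlinarith
    · by_contra hc
      push Not at hc
      nlinarith
  rw [abs_le] at hρ1
  have hρ2 : 4 * eK n * eρ n l ^ 2 ≤ 1 := by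
    have : 4 * eK n * eρ n l ^ 2 = es n l * eρ n l := by rw [← hρe]; ring
    rw [this]
    have : |es n l * eρ n l| ≤ 1 := by
      rw [abs_mul]
      have h1 : |es n l| ≤ 1 := by rw [abs_le]; constructor <;> linarith
      have h2 : |eρ n l| ≤ 1 := by rw [abs_le]; constructor <;> linarith
      exact mul_le_one₀ h1 (abs_nonneg _) h2
    exact (le_abs_self _).trans this
  have h1 : (1 / 2 - eρ n l) * (x 0 / eR n) ≤ 1 - (1 / 2 + eρ n l) * x 1 := by linarith
  have h2 : -((1 / 2 + eρ n l) * x 1) ≤ 4 * ea n := by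
    nlinarith
  have h3 : x 0 / eR n ≤ 4 * (1 + 4 * ea n) := by
    by_contra hc
    push Not at hc
    nlinarith
  rw [div_le_iff₀ hR] at h3
  have hT2 := eT_GaR (n := n)
  have h4 : 4 * (1 + 4 * ea n) * eR n ≤ 20 * (ea n * eR n) := by nlinarith
  have h5 : ea n * eR n ≤ eG n * ea n * eR n := by
    have : 0 < ea n * eR n := by positivity
    nlinarith
  have h6 : ea n ≤ ea n * eR n := le_mul_of_one_le_right ha.le hR1
  linarith

end Pool.Agent.H44.TE
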