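import Pool.Agent.H44.TE.Pla
import Pool.Agent.H44.TE.DisH

set_option autoImplicit false

/-!
# [H44 TE Dis] The ellipsoids are pairwise disjoint (MP_ce02af_co)
-/

namespace Pool.Agent.H44.TE

open Pool.Agent.H44.TB

variable {n M : ℕ}

/-- Planar: the ellipses of `f - G (j + 1) z`, `u = 1 - z` and `f - G (j' + 1) z` are disjoint, `Y' ≥ 8 a Y`,
`m = j' - j`, `1 ≤ m ≤ n`, `a = n + 1`, `G = 8 K`. With `g' = g - G m z ≥ 0`. If `z > 0`: `G z ≤ g ≤ 2 Y`,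
so `z ≤ 1/8`, `g' ≥ Y' (7/8 - 1/4) > 2 Y ≥ g ≥ g'`. If `z ≤ 0`: `|z| ≤ Y / (3 K)`, `g' ≥ 3/4 Y'`,
`g' ≤ 2 Y + (8 / 3) n Y`. -/
theorem EL_disj {K Y Y' a f z c c' d : ℝ} (hY : 10 ≤ Y) (hK : 100 * Y ≤ K) (hK' : 100 * Y' ≤ K)
    (ha : 1 ≤ a) (hYY : 8 * a * Y ≤ Y') {m : ℝ} (hm1 : 1 ≤ m) (hma : m ≤ a) (hc : 0 ≤ c) (hc' : 0 ≤ c')
    (h1 : EL Y K (f - 8 * K * d * z) (1 - z) c)
    (h2 : EL Y' K (f - 8 * K * (d + m) * z) (1 - z) c') : False := by
  have hY0 : 0 < Y := by linarith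
  have hK0 : 0 < K := by linarith
  have haY : Y ≤ a * Y := le_mul_of_one_le_left hY0.le ha
  have hY' : 10 ≤ Y' := by nlinarith
  obtain ⟨a1, a2, a3, a4, a5, a6⟩ := pl_box hY hK hc h1
  obtain ⟨b1, b2, b3, b4, b5, b6⟩ := pl_box hY' hK' hc' h2
  obtain ⟨g, hg⟩ : ∃ g : ℝ, g = f - 8 * K * d * z := ⟨_, rfl⟩
  rw [← hg] at a1 a4 a5 a6
  have hg' : f - 8 * K * (d + m) * z = g - 8 * K * m * z := by rw [hg]; ring
  rw [hg'] at b1 b4 b5 b6
  have b4' := (abs_le.1 b4).1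
  have b7 : Y' * (1 - z) - Y' / 4 ≤ g - 8 * K * m * z := by linarith
  by_cases hz : 0 < z
  · have e1 : 8 * K * z ≤ 8 * K * m * z := by
      have : 0 < K * z := mul_pos hK0 hz
      nlinarith
    have e2 : 8 * K * z ≤ 2 * Y := by linarith
    have e3 : z ≤ 1 / 400 := by
      have : 8 * K * z ≤ 2 * (K / 100) := by linarith
      have h3 : K * z ≤ K * (1 / 400) := by linarith
      exact le_of_mul_le_mul_left h3 hK0
    have e4 : 0 < 8 * K * m * z := by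
      have : 0 < K * z := mul_pos hK0 hz
      linarith
    have e5 : Y' * (1 - z) ≥ Y' * (1 - 1 / 400) := by
      apply mul_le_mul_of_nonneg_left _ (by linarith)
      linarith
    linarith
  · push Not at hz
    have e0 : -z ≤ Y / (3 * K) := by linarith
    have e1 : K * (-z) ≤ Y / 3 := by
      have h3 : K * (-z) ≤ K * (Y / (3 * K)) := mul_le_mul_of_nonneg_left e0 hK0.le
      have h4 : K * (Y / (3 * K)) = Y / 3 := by field_simp
      linarith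
    have e2 : m * (K * (-z)) ≤ a * (Y / 3) := by
      have h5 : 0 ≤ K * (-z) := mul_nonneg hK0.le (by linarith)
      exact mul_le_mul hma e1 h5 (by linarith)
    have e3 : 8 * K * m * z = -(8 * (m * (K * (-z)))) := by ring
    have e4 : Y' ≤ Y' * (1 - z) := by nlinarith
    nlinarith

theorem eYA_succ_le {j j' : ℕ} (h : j < j') : 8 * ea n * eYA n j ≤ eYA n j' := by
  have := ea_pos (n := n)
  have h8 := eΛ_ge (n := n)
  have : 0 < eΛ n := by linarith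
  have := eκ_ge (n := n)
  have : 0 < eκ n := by linarith
  have := eη_pos (n := n)
  have h2 : 0 ≤ 20000 * ea n ^ 2 * eκ n * eΛ n ^ n / eη n := by positivity
  have h3 : eΛ n ^ (j + 1) ≤ eΛ n ^ j' := pow_le_pow_right₀ (by linarith) h
  have h4 := mul_le_mul_of_nonneg_left h3 h2
  have h5 : 8 * ea n = eΛ n := rfl
  rw [h5]
  unfold eYA
  calc eΛ n * (20000 * ea n ^ 2 * eκ n * eΛ n ^ n / eη n * eΛ n ^ j)
      = 20000 * ea n ^ 2 * eκ n * eΛ n ^ n / eη n * eΛ n ^ (j + 1) := by ring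
    _ ≤ _ := h4

theorem eYB_succ_le {j j' : ℕ} (h : j < j') : 8 * ea n * eYB n j ≤ eYB n j' := by
  have := ea_pos (n := n)
  have h8 := eΛ_ge (n := n)
  have h2 : 0 ≤ 100 * ea n := by positivity
  have h3 : eΛ n ^ (j + 1) ≤ eΛ n ^ j' := pow_le_pow_right₀ (by linarith) h
  have h4 := mul_le_mul_of_nonneg_left h3 h2
  have h5 : 8 * ea n = eΛ n := rfl
  rw [h5]
  unfold eYB
  calc eΛ n * (100 * ea n * eΛ n ^ j) = 100 * ea n * eΛ n ^ (j + 1) := by ring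
    _ ≤ _ := h4

theorem eYB_ge' (k : ℕ) : 10 ≤ eYB n k := by
  have h2 := eYB_ge (n := n) k
  have := ea_one (n := n)
  linarith

theorem sub_le_ea {j j' : ℕ} (h : j < j') (hj' : j' < n) :
    (1 : ℝ) ≤ (j' : ℝ) - j ∧ (j' : ℝ) - j ≤ ea n := by
  have h1 : (j : ℝ) + 1 ≤ j' := by exact_mod_cast h
  have h2 : (j' : ℝ) + 1 ≤ n := by exact_mod_cast hj'
  have h3 : (0 : ℝ) ≤ j := Nat.cast_nonneg j
  unfold ea
  constructor <;> linarith

theorem disj_AA {j j' : ℕ} (h : j < j') (hj' : j' < n) : Disjoint (sA n j) (sA n j') := by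
  rw [Set.disjoint_left]
  intro x h1 h2
  have hd := eδ_pos (n := n)
  have hE := eE_pos (n := n)
  obtain ⟨s1, s2⟩ := sub_le_ea h hj'
  have hc : 0 ≤ eδ n * (x 1) ^ 2 / (16 * eE n ^ 2) := by positivity
  refine EL_disj (K := eK n) (f := x 0 / eR n) (z := x 2 / eR n) (d := (j : ℝ) + 1)
    (m := (j' : ℝ) - j) (eYA_ge' j) (eYA_le (by omega)) (eYA_le hj'.le) ea_one (eYA_succ_le h) s1 s2
    hc hc ?_ ?_
  · have h3 : EL (eYA n j) (eK n) (x 0 / eR n - eG n * (j + 1) * (x 2 / eR n)) (1 - x 2 / eR n)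
      (eδ n * (x 1) ^ 2 / (16 * eE n ^ 2)) := h1
    exact h3
  · have h3 : EL (eYA n j') (eK n) (x 0 / eR n - eG n * (j' + 1) * (x 2 / eR n)) (1 - x 2 / eR n)
      (eδ n * (x 1) ^ 2 / (16 * eE n ^ 2)) := h2
    have e : x 0 / eR n - eG n * (j' + 1) * (x 2 / eR n) =
        x 0 / eR n - 8 * eK n * ((j : ℝ) + 1 + ((j' : ℝ) - j)) * (x 2 / eR n) := by
      unfold eG; ring
    rw [e] at h3
    exact h3

theorem disj_BB {j j' : ℕ} (h : j < j') (hj' : j' < n) : Disjoint (sB n j) (sB n j') := by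
  rw [Set.disjoint_left]
  intro x h1 h2
  have hd := eδ_pos (n := n)
  have hE := eR_pos (n := n)
  obtain ⟨s1, s2⟩ := sub_le_ea h hj'
  have hc : 0 ≤ eδ n * (x 0) ^ 2 / (16 * eR n ^ 2) := by positivity
  refine EL_disj (K := eK n) (f := x 1) (z := x 2) (d := (j : ℝ) + 1)
    (m := (j' : ℝ) - j) (eYB_ge' j) (eYB_le' (by omega)) (eYB_le' hj'.le) ea_one (eYB_succ_le h) s1 s2
    hc hc ?_ ?_
  · have h3 : EL (eYB n j) (eK n) (x 1 - eG n * (j + 1) * x 2) (1 - x 2)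
      (eδ n * (x 0) ^ 2 / (16 * eR n ^ 2)) := h1
    exact h3
  · have h3 : EL (eYB n j') (eK n) (x 1 - eG n * (j' + 1) * x 2) (1 - x 2)
      (eδ n * (x 0) ^ 2 / (16 * eR n ^ 2)) := h2
    have e : x 1 - eG n * (j' + 1) * x 2 =
        x 1 - 8 * eK n * ((j : ℝ) + 1 + ((j' : ℝ) - j)) * x 2 := by
      unfold eG; ring
    rw [e] at h3
    exact h3

/-- on `A_j` with `|z| ≤ 2`: `x / R ≥ YA_j / 4` -/
theorem A_ge {j : ℕ} (hj : j < n) {x : E3} (hx : x ∈ sA n j) (hz : |x 2| ≤ 2) :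
    eYA n j / 4 ≤ x 0 / eR n := by
  have hd := eδ_pos (n := n)
  have hE := eE_pos (n := n)
  have hR := eR_pos (n := n)
  have hG := eG_ge (n := n)
  have ha := ea_one (n := n)
  have hY := eYA_ge' (n := n) j
  have hc : 0 ≤ eδ n * (x 1) ^ 2 / (16 * eE n ^ 2) := by positivity
  have h3 : EL (eYA n j) (eK n) (x 0 / eR n - eG n * (j + 1) * (x 2 / eR n)) (1 - x 2 / eR n)
      (eδ n * (x 1) ^ 2 / (16 * eE n ^ 2)) := hx
  obtain ⟨a1, a2, a3, a4, a5, a6⟩ := pl_box hY (eYA_le (by omega)) hc h3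
  have hb := (abs_le.1 a4).1
  have hGa : 0 < eG n * ea n := by have := ea_pos (n := n); have := eG_pos (n := n); positivity
  have hRe : eR n = 16 * (eG n * ea n) := by unfold eR; ring
  have hja : (j : ℝ) + 1 ≤ ea n := by
    have : (j : ℝ) + 1 ≤ n := by exact_mod_cast hj
    unfold ea; linarith
  have hj0 : (0 : ℝ) ≤ j := Nat.cast_nonneg j
  have hR16 : 16 ≤ eR n := by
    rw [hRe]
    have : 8000000 * 1 ≤ eG n * ea n := mul_le_mul hG ha (by norm_num) (by linarith)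
    linarith
  obtain ⟨z1, z2⟩ := abs_le.1 hz
  obtain ⟨t, ht⟩ : ∃ t : ℝ, t = x 2 / eR n := ⟨_, rfl⟩
  have htR : t * eR n = x 2 := by rw [ht]; field_simp
  rw [← ht] at hb
  have ht1 : t ≤ 1 / 8 := by
    rw [ht, div_le_iff₀ hR]; linarith
  have e1 : -(1 / 8) ≤ eG n * (j + 1) * t := by
    have h5 : |eG n * (j + 1) * t| ≤ 1 / 8 := by
      rw [ht, abs_mul, abs_div, abs_of_pos hR, abs_of_nonneg (by positivity)]
      rw [mul_div_assoc', div_le_iff₀ hR]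
      calc eG n * (j + 1) * |x 2| ≤ eG n * ea n * 2 := by
            apply mul_le_mul _ hz (abs_nonneg _) hGa.le
            exact mul_le_mul_of_nonneg_left hja (by linarith)
        _ = 1 / 8 * eR n := by rw [hRe]; ring
    exact (abs_le.1 h5).1
  have e2 : eYA n j * (1 - 1 / 8) ≤ eYA n j * (1 - t) := by
    apply mul_le_mul_of_nonneg_left _ (by linarith)
    linarith
  linarith

/-- on `B_k`: `|z| ≤ 2`, `x₀² ≤ 32 R² YB_k / δ` -/
theorem B_box {k : ℕ} (hk : k < n) {x : E3} (hx : x ∈ sB n k) :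
    |x 2| ≤ 2 ∧ eδ n * (x 0) ^ 2 ≤ 32 * eR n ^ 2 * eYB n k ∧
      eYB n k * (3 / 4 - x 2) ≤ x 1 - eG n * (k + 1) * x 2 := by
  have hd := eδ_pos (n := n)
  have hR := eR_pos (n := n)
  have hY := eYB_ge' (n := n) k
  have hK := eK_pos (n := n)
  have hYK := eYB_le' (n := n) hk.le
  have hc : 0 ≤ eδ n * (x 0) ^ 2 / (16 * eR n ^ 2) := by positivity
  have h3 : EL (eYB n k) (eK n) (x 1 - eG n * (k + 1) * x 2) (1 - x 2)
      (eδ n * (x 0) ^ 2 / (16 * eR n ^ 2)) := hx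
  obtain ⟨a1, a2, a3, a4, a5, a6⟩ := pl_box hY hYK hc h3
  have e1 : eYB n k / (3 * eK n) ≤ 1 := by
    rw [div_le_one (by positivity)]; linarith
  refine ⟨abs_le.2 ⟨by linarith, by linarith⟩, ?_, ?_⟩
  · have h5 : eδ n * (x 0) ^ 2 / (16 * eR n ^ 2) ≤ 2 * eYB n k := by linarith
    rw [div_le_iff₀ (by positivity)] at h5
    linarith
  · have hb := (abs_le.1 a4).1
    linarith

theorem disj_AB {j k : ℕ} (hj : j < n) (hk : k < n) : Disjoint (sA n j) (sB n k) := by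
  rw [Set.disjoint_left]
  intro x h1 h2
  obtain ⟨b1, b2, -⟩ := B_box hk h2
  have h3 := A_ge hj h1 b1
  have hR := eR_pos (n := n)
  have hd := eδ_pos (n := n)
  have hη := eη_pos (n := n)
  have hκ := eκ_ge (n := n)
  have hκ0 : 0 < eκ n := by linarith
  have ha := ea_pos (n := n)
  have ha1 := ea_one (n := n)
  have hYA := eYA_pos (n := n) j
  have hYB := eYB_pos (n := n) n
  -- `YA R / 4 ≤ x 0`
  have h4 : eYA n j / 4 * eR n ≤ x 0 := by
    rw [le_div_iff₀ hR] at h3; exact h3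
  have h5 : (eYA n j / 4 * eR n) ^ 2 ≤ (x 0) ^ 2 := pow_le_pow_left₀ (by positivity) h4 2
  have h6 : eδ n * (eYA n j / 4 * eR n) ^ 2 ≤ 32 * eR n ^ 2 * eYB n k :=
    (mul_le_mul_of_nonneg_left h5 hd.le).trans b2
  have h7 : eδ n * eYA n j ^ 2 ≤ 512 * eYB n k := by
    have h8 : eR n ^ 2 * (eδ n * eYA n j ^ 2) ≤ eR n ^ 2 * (512 * eYB n k) := by nlinarith
    exact le_of_mul_le_mul_left h8 (by positivity)
  -- `η YA ≥ 200 a κ YB_n`
  have h8 := eYA_ge (n := n) j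
  rw [div_le_iff₀ hη] at h8
  have h9 : (200 * ea n * eκ n * eYB n n) ^ 2 ≤ (eYA n j * eη n) ^ 2 :=
    pow_le_pow_left₀ (by positivity) h8 2
  have h10 := eδ_eq n
  have h11 : (eYA n j * eη n) ^ 2 = 32 * eK n * ea n ^ 2 * (eδ n * eYA n j ^ 2) := by
    rw [mul_pow, ← h10]; ring
  rw [h11] at h9
  have h12 : 32 * eK n * ea n ^ 2 * (eδ n * eYA n j ^ 2) ≤ 32 * eK n * ea n ^ 2 * (512 * eYB n k) := by
    apply mul_le_mul_of_nonneg_left h7
    have := eK_pos (n := n)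
    positivity
  have hKe : eK n = eκ n ^ 2 := rfl
  have h13 : (200 * ea n * eκ n * eYB n n) ^ 2 = eκ n ^ 2 * ea n ^ 2 * (40000 * eYB n n ^ 2) := by ring
  have h14 : 32 * eK n * ea n ^ 2 * (512 * eYB n k) = eκ n ^ 2 * ea n ^ 2 * (16384 * eYB n k) := by
    rw [hKe]; ring
  have h15 : 40000 * eYB n n ^ 2 ≤ 16384 * eYB n k := by
    refine le_of_mul_le_mul_left ?_ (show 0 < eκ n ^ 2 * ea n ^ 2 by positivity)
    linarith
  have h16 : eYB n k ≤ eYB n n := by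
    have h17 : eΛ n ^ k ≤ eΛ n ^ n := pow_le_pow_right₀ (by linarith [eΛ_ge (n := n)]) hk.le
    unfold eYB
    exact mul_le_mul_of_nonneg_left h17 (by positivity)
  have h17 := eYB_ge' (n := n) n
  nlinarith

/-- bounds on `F_l` -/
theorem F_box {l : ℕ} (hl : l < n) {x : E3} (hx : x ∈ sF n l) :
    |x 2 - eζ n * (l + 1)| ≤ eζ n / 4 ∧ 0 < x 2 ∧ x 2 ≤ 1 / 4 ∧ |x 1| ≤ 4 * ea n ∧
      |x 0 / eR n| ≤ 20 * ea n := by
  have hζ := eζ_pos (n := n)
  have ha := ea_pos (n := n)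
  have ha1 := ea_one (n := n)
  have hD := eD_pos (n := n)
  have hK := eK_ge (n := n)
  have hη := eη_pos (n := n)
  have hη1 := eη_le (n := n)
  have h3 : ((4 * eK n * eρ n l ^ 2 - ((1 / 2 - eρ n l) * (x 0 / eR n) + (1 / 2 + eρ n l) * x 1) -
      eD n) / eD n) ^ 2 + (x 1 / (4 * ea n)) ^ 2 + (4 * (x 2 - eζ n * (l + 1)) / eζ n) ^ 2 ≤ 1 := hx
  obtain ⟨p, hp⟩ : ∃ p : ℝ, p = (4 * eK n * eρ n l ^ 2 - ((1 / 2 - eρ n l) * (x 0 / eR n) +
    (1 / 2 + eρ n l) * x 1) - eD n) / eD n := ⟨_, rfl⟩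
  obtain ⟨q, hq⟩ : ∃ q : ℝ, q = x 1 / (4 * ea n) := ⟨_, rfl⟩
  obtain ⟨r, hr⟩ : ∃ r : ℝ, r = 4 * (x 2 - eζ n * (l + 1)) / eζ n := ⟨_, rfl⟩
  rw [← hp, ← hq, ← hr] at h3
  have hp1 : |p| ≤ 1 := by rw [← sq_le_one_iff_abs_le_one]; nlinarith [sq_nonneg p, sq_nonneg q, sq_nonneg r]
  have hq1 : |q| ≤ 1 := by rw [← sq_le_one_iff_abs_le_one]; nlinarith [sq_nonneg p, sq_nonneg q, sq_nonneg r]
  have hr1 : |r| ≤ 1 := by rw [← sq_le_one_iff_abs_le_one]; nlinarith [sq_nonneg p, sq_nonneg q, sq_nonneg r]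
  have hr2 : x 2 - eζ n * (l + 1) = eζ n / 4 * r := by rw [hr]; field_simp
  have hq2 : x 1 = 4 * ea n * q := by rw [hq]; field_simp
  have hp2 : (1 / 2 - eρ n l) * (x 0 / eR n) = 4 * eK n * eρ n l ^ 2 - (1 / 2 + eρ n l) * x 1 -
      eD n - eD n * p := by
    have : eD n * p = 4 * eK n * eρ n l ^ 2 - ((1 / 2 - eρ n l) * (x 0 / eR n) +
        (1 / 2 + eρ n l) * x 1) - eD n := by rw [hp]; field_simp
    linarith
  have c1 : |x 2 - eζ n * (l + 1)| ≤ eζ n / 4 := by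
    rw [hr2, abs_mul, abs_of_pos (by positivity)]
    exact mul_le_of_le_one_right (by positivity) hr1
  obtain ⟨c2, c3⟩ := abs_le.1 c1
  have hl0 : (0 : ℝ) ≤ l := Nat.cast_nonneg l
  have hla : (l : ℝ) + 2 ≤ ea n := by
    have : (l : ℝ) + 1 ≤ n := by exact_mod_cast hl
    unfold ea; linarith
  have hζa : eζ n * ea n ≤ 1 / 4 := by
    have h5 := eδ_le (n := n)
    have h6 := eG_ge (n := n)
    have h7 : eζ n * (4 * eG n * ea n ^ 2) = eδ n := by unfold eζ; field_simp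
    have h8 : 0 < eζ n * ea n := by positivity
    have h9 : (1 : ℝ) ≤ eG n * ea n := one_le_mul_of_one_le_of_one_le (by linarith) ha1
    have h10 : eζ n * (4 * eG n * ea n ^ 2) = 4 * (eζ n * ea n) * (eG n * ea n) := by ring
    nlinarith
  have c4 : |x 1| ≤ 4 * ea n := by
    rw [hq2, abs_mul, abs_of_pos (by positivity)]
    exact mul_le_of_le_one_right (by positivity) hq1
  have hσ := es_bound (n := n) hl
  have hρe := eρ_eq (n := n) l
  have hρ1 : |eρ n l| ≤ 1 / 4 := by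
    have h5 : |es n l| ≤ 1 := by rw [abs_le]; constructor <;> linarith [hσ.1, hσ.2]
    have h4K : 0 < 4 * eK n := by linarith
    have h6 : 4 * eK n * |eρ n l| = |es n l| := by
      rw [← hρe, abs_mul, abs_of_pos h4K]
    have h7 : 4 * |eρ n l| ≤ 4 * eK n * |eρ n l| := by
      apply mul_le_mul_of_nonneg_right _ (abs_nonneg _)
      linarith
    linarith
  obtain ⟨r1, r2⟩ := abs_le.1 hρ1
  have hs1 : |es n l| ≤ 1 := by rw [abs_le]; constructor <;> linarith [hσ.1, hσ.2]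
  have hKρ : |4 * eK n * eρ n l ^ 2| ≤ 1 / 4 := by
    have h6 : 4 * eK n * eρ n l ^ 2 = es n l * eρ n l := by rw [← hρe]; ring
    rw [h6, abs_mul]
    calc |es n l| * |eρ n l| ≤ 1 * (1 / 4) := mul_le_mul hs1 hρ1 (abs_nonneg _) (by norm_num)
      _ = 1 / 4 := by norm_num
  have hD1 : eD n ≤ 1 := by
    unfold eD
    rw [div_le_one (by linarith)]
    nlinarith
  have hDp : |eD n * p| ≤ 1 := by
    rw [abs_mul, abs_of_pos hD]
    exact mul_le_one₀ hD1 (abs_nonneg _) hp1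
  have hy1 : |(1 / 2 + eρ n l) * x 1| ≤ 3 * ea n := by
    rw [abs_mul, abs_of_pos (by linarith)]
    calc (1 / 2 + eρ n l) * |x 1| ≤ (3 / 4) * (4 * ea n) :=
          mul_le_mul (by linarith) c4 (abs_nonneg _) (by norm_num)
      _ = 3 * ea n := by ring
  have hX : |(1 / 2 - eρ n l) * (x 0 / eR n)| ≤ 3 * ea n + 2 + 1 / 4 := by
    rw [hp2]
    obtain ⟨u1, u2⟩ := abs_le.1 hKρ
    obtain ⟨u3, u4⟩ := abs_le.1 hDp
    obtain ⟨u5, u6⟩ := abs_le.1 hy1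
    rw [abs_le]
    constructor <;> linarith
  have hX2 : 1 / 4 * |x 0 / eR n| ≤ 3 * ea n + 2 + 1 / 4 := by
    rw [abs_mul, abs_of_pos (by linarith)] at hX
    have := mul_le_mul_of_nonneg_right (show 1 / 4 ≤ 1 / 2 - eρ n l by linarith)
      (abs_nonneg (x 0 / eR n))
    linarith
  have k1 : eζ n * 1 ≤ eζ n * (l + 1) := mul_le_mul_of_nonneg_left (by linarith) hζ.le
  have k2 : eζ n * (l + 1) ≤ eζ n * (ea n - 1) := mul_le_mul_of_nonneg_left (by linarith) hζ.le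
  refine ⟨c1, ?_, ?_, c4, ?_⟩
  · linarith
  · linarith
  · linarith

theorem disj_AF {j l : ℕ} (hj : j < n) (hl : l < n) : Disjoint (sA n j) (sF n l) := by
  rw [Set.disjoint_left]
  intro x h1 h2
  obtain ⟨f1, f2, f3, f4, f5⟩ := F_box hl h2
  have h3 := A_ge hj h1 (abs_le.2 ⟨by linarith, by linarith⟩)
  have h4 := (eYB_ge (n := n) 0).trans (eYB_le (n := n) (Nat.zero_le n) j)
  have h5 := (abs_le.1 f5).2
  have := ea_pos (n := n)
  linarith

theorem disj_BF {k l : ℕ} (hk : k < n) (hl : l < n) : Disjoint (sB n k) (sF n l) := by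
  rw [Set.disjoint_left]
  intro x h1 h2
  obtain ⟨f1, f2, f3, f4, f5⟩ := F_box hl h2
  obtain ⟨b1, b2, b3⟩ := B_box hk h1
  have h4 := eYB_ge (n := n) k
  have h5 := (abs_le.1 f4).2
  have := ea_pos (n := n)
  have hG := eG_pos (n := n)
  have h6 : 0 ≤ eG n * (k + 1) * x 2 := by positivity
  have h7 : eYB n k * (1 / 2) ≤ eYB n k * (3 / 4 - x 2) := by
    apply mul_le_mul_of_nonneg_left _ (eYB_pos k).le
    linarith
  linarith

theorem disj_FF {l l' : ℕ} (h : l < l') (hl' : l' < n) : Disjoint (sF n l) (sF n l') := by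
  rw [Set.disjoint_left]
  intro x h1 h2
  obtain ⟨f1, -⟩ := F_box (h.trans hl') h1
  obtain ⟨g1, -⟩ := F_box hl' h2
  have hζ := eζ_pos (n := n)
  have h3 : (l : ℝ) + 1 ≤ l' := by exact_mod_cast h
  obtain ⟨f2, f3⟩ := abs_le.1 f1
  obtain ⟨g2, g3⟩ := abs_le.1 g1
  have h4 : eζ n * ((l : ℝ) + 1 + 1) ≤ eζ n * ((l' : ℝ) + 1) := by
    apply mul_le_mul_of_nonneg_left _ hζ.le
    linarith
  nlinarith

/-- The ellipsoids are pairwise disjoint. A/A', B/B': `EL_disj`. A/B: on `B_k`: `|z| ≤ 2`,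
`x² ≤ 32 R² YB_k / δ`, on `A_j` with `|z| ≤ 2`: `x / R ≥ YA_j / 4`, and
`YA_j² / 16 > 32 YB_n / δ` (`eYA_ge`, `K = κ²`, `eδ_eq`). A/F, B/F: on `F_l`: `0 < z ≤ 1`, `|y| ≤ 4 a`,
`|x / R| ≤ 20 a`, on `B_k` there `y ≥ YB_k (1 - z) - YB_k / 4 > 4 a` (`z` tiny), on `A_j`
`x / R ≥ YA_j / 4 > 20 a`. F/F': `|z - ζ (l + 1)| ≤ ζ / 4`. H/A, H/B, H/F: on `H_m`
`x + y ≥ C_m - 1 + w_m z`, on the others `z ≥ -R`, `|x + y|` at most
`R (2 YA_n + 2 G a) + E (1 + 32 YA_n / δ)` or so, `C_m ≥ 1000 G a R YA_n / δ`. H/H': `z ≥ -4 C_m / δ`,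
Bernoulli for `(1 + 8 G / δ)^d`. -/
theorem disj (_hn : 2 ≤ n) (hM2 : M ≤ 2 * n + 4) {i i' : Idx n M} (h : i ≠ i') :
    Disjoint (efam n M i) (efam n M i') := by
  rcases i with (⟨j, hj⟩ | ⟨k, hk⟩) | (⟨l, hl⟩ | ⟨m, hm⟩) <;>
    rcases i' with (⟨j', hj'⟩ | ⟨k', hk'⟩) | (⟨l', hl'⟩ | ⟨m', hm'⟩) <;>
    simp only [efam]
  · have h' : j ≠ j' := by rintro rfl; exact h rfl
    rcases lt_or_gt_of_ne h' with h' | h'
    · exact disj_AA h' hj'
    · exact (disj_AA h' hj).symm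
  · exact disj_AB hj hk'
  · exact disj_AF hj hl'
  · exact (disj_HA (by omega) hj).symm
  · exact (disj_AB hj' hk).symm
  · have h' : k ≠ k' := by rintro rfl; exact h rfl
    rcases lt_or_gt_of_ne h' with h' | h'
    · exact disj_BB h' hk'
    · exact (disj_BB h' hk).symm
  · exact disj_BF hk hl'
  · exact (disj_HB (by omega) hk).symm
  · exact (disj_AF hj' hl).symm
  · exact (disj_BF hk' hl).symm
  · have h' : l ≠ l' := by rintro rfl; exact h rfl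
    rcases lt_or_gt_of_ne h' with h' | h'
    · exact disj_FF h' hl'
    · exact (disj_FF h' hl).symm
  · exact (disj_HF (by omega) hl).symm
  · exact disj_HA (by omega) hj'
  · exact disj_HB (by omega) hk'
  · exact disj_HF (by omega) hl'
  · have h' : m ≠ m' := by rintro rfl; exact h rfl
    rcases lt_or_gt_of_ne h' with h' | h'
    · exact disj_HH h'
    · exact (disj_HH h').symm

end Pool.Agent.H44.TE
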