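import Pool.Agent.H44.TE.Def

set_option autoImplicit false

/-!
# [H44 TE Lin] Cones of directions and sample lines (MP_ce02af_co, ellipsoids)
-/

namespace Pool.Agent.H44.TE

open Pool.Agent.H44.TB (E3 Line3 lin)

variable {n M : ℕ}

/-- The closed cone of directions. -/
def coneCl (n : ℕ) (c : ℕ × ℕ × ℕ) : Set E3 :=
  {v | 0 ≤ v 2 ∧ (eG n * (c.1 + 1) + es n c.2.2) * v 2 ≤ v 0 ∧
    v 0 ≤ (eG n * (c.1 + 1) + es n (c.2.2 + 1)) * v 2 ∧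
    (eG n * (c.2.1 + 1) - 2 * eη n) * v 2 ≤ v 1 ∧
    v 0 + v 1 ≤ (eG n * (c.1 + c.2.1 + 2) - eδ n) * v 2}

/-- The open cone of directions. -/
def coneOp (n : ℕ) (c : ℕ × ℕ × ℕ) : Set E3 :=
  {v | 0 < v 2 ∧ (eG n * (c.1 + 1) + es n c.2.2) * v 2 < v 0 ∧
    v 0 < (eG n * (c.1 + 1) + es n (c.2.2 + 1)) * v 2 ∧
    (eG n * (c.2.1 + 1) - 2 * eη n) * v 2 < v 1 ∧
    v 0 + v 1 < (eG n * (c.1 + c.2.1 + 2) - eδ n) * v 2}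

theorem mem_coneCl {c : ℕ × ℕ × ℕ} {v : E3} : v ∈ coneCl n c ↔
  0 ≤ v 2 ∧ (eG n * (c.1 + 1) + es n c.2.2) * v 2 ≤ v 0 ∧
    v 0 ≤ (eG n * (c.1 + 1) + es n (c.2.2 + 1)) * v 2 ∧
    (eG n * (c.2.1 + 1) - 2 * eη n) * v 2 ≤ v 1 ∧
    v 0 + v 1 ≤ (eG n * (c.1 + c.2.1 + 2) - eδ n) * v 2 := Iff.rfl

theorem mem_coneOp {c : ℕ × ℕ × ℕ} {v : E3} : v ∈ coneOp n c ↔
  0 < v 2 ∧ (eG n * (c.1 + 1) + es n c.2.2) * v 2 < v 0 ∧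
    v 0 < (eG n * (c.1 + 1) + es n (c.2.2 + 1)) * v 2 ∧
    (eG n * (c.2.1 + 1) - 2 * eη n) * v 2 < v 1 ∧
    v 0 + v 1 < (eG n * (c.1 + c.2.1 + 2) - eδ n) * v 2 := Iff.rfl

theorem coneOp_subset (c : ℕ × ℕ × ℕ) : coneOp n c ⊆ coneCl n c := fun _ h =>
  ⟨h.1.le, h.2.1.le, h.2.2.1.le, h.2.2.2.1.le, h.2.2.2.2.le⟩

/-- The parameter `σ` of the sample line with index `i`. -/
noncomputable def esmp (n i : ℕ) : ℝ := es n i + eη n / ea n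

/-- `P(σ) = -σ² / (4 K) + δ`. -/
noncomputable def eP (n : ℕ) (σ : ℝ) : ℝ := -(σ ^ 2 / (4 * eK n)) + eδ n

/-- The sample line. -/
noncomputable def sampleLine (n : ℕ) (c : ℕ × ℕ × ℕ) : Line3 :=
  lin (eG n * (c.1 + 1) + esmp n c.2.2) (eG n * (c.2.1 + 1) + (-esmp n c.2.2 - 2 * eδ n))
    (eR n * (eP n (esmp n c.2.2) - esmp n c.2.2))
    (eP n (-esmp n c.2.2 - 2 * eδ n) - (-esmp n c.2.2 - 2 * eδ n))

theorem smp_mid' (i : ℕ) : esmp n i = es n (i + 1) - eη n / ea n := by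
  rw [es_succ]; unfold esmp; ring

end Pool.Agent.H44.TE
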