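import Pool.Agent.H44.TE.Def

set_option autoImplicit false

/-!
# [H44 TE Pla] The planar ellipses and lines (MP_ce02af_co, ellipsoids)

A line is `g = P - σ u`. With `lam = (K - Y) / Y²`, `A = Y + lam (σ + Y)²`, `B = 2 lam P (σ + Y) - σ`,
`C = lam P² - P` one has `Y u² + lam (P - σ u - Y u)² - (P - σ u) = A u² - B u + C` and
`B² - 4 A C = σ² + 4 P (K + lam Y σ) - 4 Y lam P²`.
-/

namespace Pool.Agent.H44.TE

variable {K Y P σ u c g : ℝ}

/-- The discriminant. -/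
noncomputable def disc (K Y P σ : ℝ) : ℝ :=
  σ ^ 2 + 4 * P * (K + (K - Y) / Y * σ) - 4 * ((K - Y) / Y) * P ^ 2

theorem disc_id (hY : 0 < Y) (ε : ℝ) :
    4 * (Y + (K - Y) / Y ^ 2 * (σ + Y) ^ 2) *
      (Y * u ^ 2 + (K - Y) / Y ^ 2 * ((P - σ * u) - Y * u) ^ 2 + ε - (P - σ * u)) =
    (2 * (Y + (K - Y) / Y ^ 2 * (σ + Y) ^ 2) * u -
      (2 * ((K - Y) / Y ^ 2) * P * (σ + Y) - σ)) ^ 2 +
      4 * (Y + (K - Y) / Y ^ 2 * (σ + Y) ^ 2) * ε - disc K Y P σ := by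
  unfold disc
  field_simp
  ring

theorem pl_disc (hY : 0 < Y) (hK : Y < K) (hc : 0 ≤ c) (h : EL Y K (P - σ * u) u c) :
    0 ≤ disc K Y P σ := by
  have h0 : 0 < (K - Y) / Y ^ 2 := div_pos (by linarith) (by positivity)
  have hA : 0 < Y + (K - Y) / Y ^ 2 * (σ + Y) ^ 2 := by positivity
  have h1 := disc_id (K := K) (P := P) (σ := σ) (u := u) hY c
  unfold EL at h
  have h2 : 4 * (Y + (K - Y) / Y ^ 2 * (σ + Y) ^ 2) *
      (Y * u ^ 2 + (K - Y) / Y ^ 2 * ((P - σ * u) - Y * u) ^ 2 + c - (P - σ * u)) ≤ 0 :=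
    mul_nonpos_of_nonneg_of_nonpos (by positivity) (by linarith)
  rw [h1] at h2
  have h3 := sq_nonneg (2 * (Y + (K - Y) / Y ^ 2 * (σ + Y) ^ 2) * u -
      (2 * ((K - Y) / Y ^ 2) * P * (σ + Y) - σ))
  have h4 : 0 ≤ 4 * (Y + (K - Y) / Y ^ 2 * (σ + Y) ^ 2) * c := by positivity
  linarith

theorem pl_hit0 (hY : 0 < Y) (hK : Y < K) {ε : ℝ}
    (h : 4 * (Y + (K - Y) / Y ^ 2 * (σ + Y) ^ 2) * ε ≤ disc K Y P σ) :
    ∃ u, EL Y K (P - σ * u) u ε := by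
  have h0 : 0 < (K - Y) / Y ^ 2 := div_pos (by linarith) (by positivity)
  have hA : 0 < Y + (K - Y) / Y ^ 2 * (σ + Y) ^ 2 := by positivity
  set A := Y + (K - Y) / Y ^ 2 * (σ + Y) ^ 2 with hAdef
  set B := 2 * ((K - Y) / Y ^ 2) * P * (σ + Y) - σ with hBdef
  refine ⟨B / (2 * A), ?_⟩
  have h1 := disc_id (K := K) (P := P) (σ := σ) (u := B / (2 * A)) hY ε
  rw [← hAdef, ← hBdef] at h1
  have h2 : 2 * A * (B / (2 * A)) - B = 0 := by field_simp; ring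
  rw [h2] at h1
  unfold EL
  by_contra hcon
  push Not at hcon
  have h3 : 0 < 4 * A * (Y * (B / (2 * A)) ^ 2 + (K - Y) / Y ^ 2 *
      ((P - σ * (B / (2 * A))) - Y * (B / (2 * A))) ^ 2 + ε - (P - σ * (B / (2 * A)))) :=
    mul_pos (by positivity) (by linarith)
  rw [h1] at h3
  linarith

/-- lower bound for `P` -/
theorem pl_low (hY : 10 ≤ Y) (hK : 100 * Y ≤ K) (hσ : |σ| ≤ 1) (h : 0 ≤ disc K Y P σ) :
    -(σ ^ 2 / (4 * K)) - |σ| ^ 3 / (20 * K) ≤ P := by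
  have hY0 : 0 < Y := by linarith
  have hK0 : 0 < K := by linarith
  obtain ⟨μ, hμ⟩ : ∃ μ : ℝ, μ = (K - Y) / Y := ⟨_, rfl⟩
  obtain ⟨s, hs⟩ : ∃ s : ℝ, s = |σ| := ⟨_, rfl⟩
  have hs0 : 0 ≤ s := by rw [hs]; exact abs_nonneg _
  have hs2 : σ ^ 2 = s ^ 2 := by rw [hs, sq_abs]
  have hσ1 : -s ≤ σ := by rw [hs]; exact neg_abs_le σ
  have hμ0 : 0 ≤ μ := by rw [hμ]; exact div_nonneg (by linarith) hY0.le
  have hμK : μ ≤ K / 10 := by
    rw [hμ, div_le_div_iff₀ hY0 (by norm_num)]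
    nlinarith
  unfold disc at h
  rw [← hμ] at h
  rw [← hs, hs2]
  rw [← hs] at hσ
  by_contra hcon
  push Not at hcon
  have e1 : 0 ≤ s ^ 2 / (4 * K) := by positivity
  have e2 : 0 ≤ s ^ 3 / (20 * K) := by positivity
  have hP : P < 0 := by linarith
  have h1 : K * (1 - s / 10) ≤ K + μ * σ := by
    have h2 : μ * (-s) ≤ μ * σ := mul_le_mul_of_nonneg_left hσ1 hμ0
    have h3 : μ * s ≤ K / 10 * s := mul_le_mul_of_nonneg_right hμK hs0
    nlinarith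
  have h2 : P * (K + μ * σ) ≤ P * (K * (1 - s / 10)) := mul_le_mul_of_nonpos_left h1 hP.le
  have h3 : P * (K * (1 - s / 10)) < (-(s ^ 2 / (4 * K)) - s ^ 3 / (20 * K)) * (K * (1 - s / 10)) :=
    mul_lt_mul_of_pos_right hcon (mul_pos hK0 (by linarith))
  have h4 : (-(s ^ 2 / (4 * K)) - s ^ 3 / (20 * K)) * (K * (1 - s / 10)) =
      (-(s ^ 2 / 4) - s ^ 3 / 20) * (1 - s / 10) := by
    field_simp
  have h5 : 0 ≤ μ * P ^ 2 := by positivity
  have h6 : 0 ≤ s ^ 3 := by positivity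
  have h7 : s ^ 3 * s ≤ s ^ 3 * 1 := mul_le_mul_of_nonneg_left hσ h6
  rw [hs2] at h
  nlinarith

/-- upper bound for `P` -/
theorem pl_up (hY : 10 ≤ Y) (hK : 100 * Y ≤ K) (hσ : |σ| ≤ 1) (h : 0 ≤ disc K Y P σ) :
    P ≤ 4 * Y := by
  have hY0 : 0 < Y := by linarith
  have hK0 : 0 < K := by linarith
  obtain ⟨μ, hμ⟩ : ∃ μ : ℝ, μ = (K - Y) / Y := ⟨_, rfl⟩
  have hμY : μ * Y = K - Y := by rw [hμ]; field_simp
  have hμ99 : 99 ≤ μ := by
    rw [hμ, le_div_iff₀ hY0]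
    linarith
  have hσ1 : σ ≤ 1 := (le_abs_self σ).trans hσ
  have hσ2 : σ ^ 2 ≤ 1 := by
    rw [← sq_abs]
    exact pow_le_one₀ (abs_nonneg _) hσ
  unfold disc at h
  rw [← hμ] at h
  by_contra hcon
  push Not at hcon
  have hP : 0 < P := by linarith
  have h1 : K + μ * σ ≤ μ * Y + Y + μ := by nlinarith
  have h2 : μ * (4 * Y) ≤ μ * P := mul_le_mul_of_nonneg_left hcon.le (by linarith)
  have h3 : K + μ * σ - μ * P ≤ -(μ * Y) := by nlinarith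
  have h4 : P * (K + μ * σ - μ * P) ≤ P * (-(μ * Y)) := mul_le_mul_of_nonneg_left h3 hP.le
  have h5 : 1 ≤ μ * Y := by nlinarith
  have h6 : 1 ≤ P * (μ * Y) := by nlinarith
  nlinarith

/-- the ellipse is small -/
theorem pl_box (hY : 10 ≤ Y) (hK : 100 * Y ≤ K) (hc : 0 ≤ c) (h : EL Y K g u c) :
    0 ≤ g ∧ -(Y / (3 * K)) ≤ u ∧ u ≤ 1 + Y / (3 * K) ∧ |g - Y * u| ≤ Y / 4 ∧ c ≤ g ∧ g ≤ 2 * Y := by
  have hY0 : 0 < Y := by linarith
  have hK0 : 0 < K := by linarith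
  unfold EL at h
  obtain ⟨lam, hlam⟩ : ∃ lam : ℝ, lam = (K - Y) / Y ^ 2 := ⟨_, rfl⟩
  obtain ⟨w, hw⟩ : ∃ w : ℝ, w = g - Y * u := ⟨_, rfl⟩
  have hg : g = Y * u + w := by rw [hw]; ring
  have hlam2 : lam * Y ^ 2 = K - Y := by rw [hlam]; field_simp
  have hlam0 : 0 < lam := by rw [hlam]; exact div_pos (by linarith) (by positivity)
  have hlamY : 99 ≤ lam * Y := by
    have h1 : 99 * Y ≤ lam * Y * Y := by nlinarith
    exact le_of_mul_le_mul_right h1 hY0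
  rw [← hlam, ← hw] at h
  rw [← hw]
  have a1 : 0 ≤ Y * u ^ 2 := by positivity
  have a2 : 0 ≤ lam * w ^ 2 := by positivity
  have hcg : c ≤ g := by linarith
  have hg0 : 0 ≤ g := by linarith
  have hmain : Y * (u ^ 2 - u) + (lam * w ^ 2 - w) + c ≤ 0 := by
    rw [hg] at h
    linarith
  -- bound for `w`
  have b1 : lam * w ^ 2 - w ≤ Y / 4 := by
    have : 0 ≤ Y * (u - 1 / 2) ^ 2 := by positivity
    nlinarith
  have b2 : 99 * w ^ 2 - Y * w ≤ Y ^ 2 / 4 := by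
    have h1 : Y * (lam * w ^ 2 - w) ≤ Y * (Y / 4) := mul_le_mul_of_nonneg_left b1 hY0.le
    have h2 : 99 * w ^ 2 ≤ lam * Y * w ^ 2 := mul_le_mul_of_nonneg_right hlamY (sq_nonneg w)
    nlinarith
  have hwb : |w| ≤ Y / 4 := by
    rw [abs_le]
    constructor
    · by_contra hcon
      push Not at hcon
      nlinarith
    · by_contra hcon
      push Not at hcon
      nlinarith
  -- bound for `u`
  have c1 : Y * (u ^ 2 - u) ≤ 1 / (4 * lam) := by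
    have h1 : w - lam * w ^ 2 ≤ 1 / (4 * lam) := by
      rw [le_div_iff₀ (by positivity)]
      nlinarith [sq_nonneg (2 * lam * w - 1)]
    linarith
  obtain ⟨e, he⟩ : ∃ e : ℝ, e = Y / (3 * K) := ⟨_, rfl⟩
  have he0 : 0 < e := by rw [he]; positivity
  have heK : e * (3 * K) = Y := by rw [he]; field_simp
  have c2 : u ^ 2 - u < e := by
    have h1 : 1 / (4 * lam) < Y * e := by
      rw [div_lt_iff₀ (by positivity)]
      -- `1 < 4 lam Y e`, `lam Y ^ 2 = K - Y`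
      have h2 : Y * e * (4 * lam) * Y = 4 * e * (K - Y) := by
        rw [← hlam2]; ring
      have h3 : 4 * e * (K - Y) > Y := by nlinarith
      have h4 : 1 * Y < Y * e * (4 * lam) * Y := by rw [h2]; linarith
      exact lt_of_mul_lt_mul_right h4 hY0.le
    have h5 : Y * (u ^ 2 - u) < Y * e := lt_of_le_of_lt c1 h1
    exact lt_of_mul_lt_mul_left h5 hY0.le
  rw [← he]
  have c3 : -e ≤ u := by
    by_contra hcon
    push Not at hcon
    nlinarith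
  have c4 : u ≤ 1 + e := by
    by_contra hcon
    push Not at hcon
    nlinarith
  have he1 : e ≤ 1 / 300 := by
    rw [he, div_le_div_iff₀ (by positivity) (by norm_num)]
    linarith
  refine ⟨hg0, c3, c4, hwb, hcg, ?_⟩
  have h1 := (abs_le.1 hwb).2
  rw [hg]
  nlinarith

end Pool.Agent.H44.TE
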