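import Pool.Agent.H44.TE.Lin
import Pool.Agent.H44.TE.Pla

set_option autoImplicit false

/-!
# [H44 TE Str] A transversal with direction in a closed cone has it in the open cone (MP_ce02af_co, ellipsoids)

Adapted from `CubicLowerBound` (helper34).
-/

namespace Pool.Agent.H44.TE

open Pool.Agent.H44.TB (E3 Line3 transversalSpace dirSet ext3 line_coords pt Idx)

variable {n M : ℕ}

/-- the key estimate: `θ = -(σ + τ)` -/
theorem face {K P Q σ τ θ ρ η δ : ℝ} (hK : 1000 ≤ K) (hη0 : 0 < η) (hη : η ≤ 1 / 1024)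
    (hδ0 : 0 < δ) (hσ : |σ| ≤ η) (hτ : τ = -σ - θ) (hθ0 : δ ≤ θ) (hθ : θ ≤ 3 * η)
    (hρ : |ρ| ≤ 1 / 8)
    (hP : -(σ ^ 2 / (4 * K)) - δ / 80 ≤ P) (hQ : -(τ ^ 2 / (4 * K)) - δ / 80 ≤ Q) :
    2 * ρ * σ - σ ^ 2 / (4 * K) + θ / 4 - δ / 80 ≤
      (1 / 2 - ρ) * (P - σ) + (1 / 2 + ρ) * (Q - τ) := by
  obtain ⟨h1, h2⟩ := abs_le.1 hρ
  obtain ⟨h3, h4⟩ := abs_le.1 hσ
  have hK0 : 0 < K := by linarith
  have hθp : 0 < θ := by linarith
  have h5 := mul_le_mul_of_nonneg_left hP (by linarith : 0 ≤ 1 / 2 - ρ)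
  have h6 := mul_le_mul_of_nonneg_left hQ (by linarith : 0 ≤ 1 / 2 + ρ)
  have h7 : τ ^ 2 / (4 * K) ≤ σ ^ 2 / (4 * K) + θ / 8 := by
    have e : τ ^ 2 = σ ^ 2 + θ * (2 * σ + θ) := by rw [hτ]; ring
    rw [e, add_div]
    have h8 : θ * (2 * σ + θ) / (4 * K) ≤ θ / 8 := by
      rw [div_le_div_iff₀ (by positivity) (by norm_num)]
      have : 2 * σ + θ ≤ 1 := by linarith
      nlinarith
    linarith
  have h9 : (1 / 2 + ρ) * (τ ^ 2 / (4 * K)) ≤ (1 / 2 + ρ) * (σ ^ 2 / (4 * K) + θ / 8) :=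
    mul_le_mul_of_nonneg_left h7 (by linarith)
  have h10 : 0 ≤ (1 / 8 + ρ) * θ := mul_nonneg (by linarith) hθp.le
  have e1 : (1 / 2 - ρ) * (P - σ) + (1 / 2 + ρ) * (Q - τ) =
      (1 / 2 - ρ) * P + (1 / 2 + ρ) * Q + 2 * ρ * σ + (1 / 2 + ρ) * θ := by rw [hτ]; ring
  rw [e1]
  nlinarith

/-- the barrier is too far away -/
theorem far {R Ga Yn δ C p q : ℝ} (hR : 1 ≤ R) (hGa : 8000000 ≤ Ga) (hY : 10 ≤ Yn) (hδ0 : 0 < δ)
    (hδ : δ ≤ 1) {G a : ℝ} (hGe : Ga = G * a)
    (hC : 1000 * G * a * R * Yn / δ ≤ C) (hp : p ≤ R * (4 * Yn + 1)) (hq : q ≤ 4 * Yn + 1)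
    (h : C - 1 ≤ p + q) : False := by
  set X := R * Yn with hX
  have h1 : 10 ≤ X := by
    calc (10 : ℝ) = 1 * 10 := by norm_num
      _ ≤ R * Yn := mul_le_mul hR hY (by norm_num) (by linarith)
  have h2 : R ≤ X := by rw [hX]; exact le_mul_of_one_le_right (by linarith) (by linarith)
  have h3 : Yn ≤ X := by rw [hX]; exact le_mul_of_one_le_left (by linarith) hR
  have h4 : R * (4 * Yn + 1) = 4 * X + R := by rw [hX]; ring
  have h5 : 1000 * X ≤ C := by
    refine le_trans ?_ hC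
    rw [le_div_iff₀ hδ0]
    have e : 1000 * G * a * R * Yn = 1000 * (Ga * X) := by rw [hGe, hX]; ring
    rw [e]
    have h6 : 1 * X ≤ Ga * X := mul_le_mul_of_nonneg_right (by linarith) (by linarith)
    have h7 : 1000 * X * δ ≤ 1000 * X * 1 := mul_le_mul_of_nonneg_left hδ (by linarith)
    linarith
  rw [h4] at hp
  linarith

/-- A transversal whose direction lies in the closed cone has its direction in the open cone. -/
theorem strict (hn : 2 ≤ n) (hM : 2 * n ≤ M + 1) {j k i : ℕ} (hj : j < n) (hk : k < n)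
    (hi : i + 1 < n) {L : Line3} (hL : L ∈ transversalSpace (efam n M)) {v : E3}
    (hv : v ∈ L.1.direction) (hv0 : v ≠ 0) (hvc : v ∈ coneCl n (j, k, i)) :
    v ∈ coneOp n (j, k, i) := by
  rw [mem_coneCl] at hvc
  obtain ⟨h2, hA, hB, hC, hD⟩ := hvc
  simp only at hA hB hC hD
  have hv2 : 0 < v 2 := by
    rcases h2.lt_or_eq with h | h
    · exact h
    · exfalso
      rw [← h] at hA hB hC hD
      simp only [mul_zero] at hA hB hC hD
      apply hv0
      apply ext3
      · simp; linarith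
      · simp; linarith
      · simp [← h]
  obtain ⟨p, q, hpq⟩ := line_coords L hv hv2
  -- slopes
  set α := v 0 / v 2 with hα
  set β := v 1 / v 2 with hβ
  have eα : v 0 = α * v 2 := by rw [hα]; field_simp
  have eβ : v 1 = β * v 2 := by rw [hβ]; field_simp
  set σ := α - eG n * (j + 1) with hs
  set τ := β - eG n * (k + 1) with ht
  set K := eK n with hKdef
  set η := eη n with hηdef
  set δ := eδ n with hδdef
  set R := eR n with hR
  have hK := eK_ge (n := n)
  have hη0 := eη_pos (n := n)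
  have hη := eη_le (n := n)
  have hδ0 := eδ_pos (n := n)
  have hδ1 := eδ_le (n := n)
  have hη3 := eη3 n
  have hG := eG_ge (n := n)
  have hR0 : 0 < R := eR_pos
  rw [← hKdef] at hK hη3
  rw [← hηdef] at hη0 hη hη3
  rw [← hδdef] at hδ0 hδ1 hη3
  have hj0 : (0 : ℝ) ≤ j := by positivity
  have hk0 : (0 : ℝ) ≤ k := by positivity
  have hin : i < n := by omega
  have hA' : es n i ≤ σ := by
    rw [eα] at hA
    have := le_of_mul_le_mul_right hA hv2
    rw [hs]; linarith
  have hB' : σ ≤ es n (i + 1) := by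
    rw [eα] at hB
    have := le_of_mul_le_mul_right hB hv2
    rw [hs]; linarith
  have hC' : -(2 * η) ≤ τ := by
    rw [eβ] at hC
    have := le_of_mul_le_mul_right hC hv2
    rw [ht]; linarith
  have hD' : σ + τ ≤ -δ := by
    rw [eα, eβ, ← add_mul] at hD
    have := le_of_mul_le_mul_right hD hv2
    rw [hs, ht]; linarith
  have hb1 := es_bound (n := n) hin
  have hb2 := es_bound (n := n) hi
  have hσ : |σ| ≤ η := abs_le.2 ⟨by linarith [hb1.1], by linarith [hb2.2]⟩
  obtain ⟨hσ1, hσ2⟩ := abs_le.1 hσ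
  have hτ : |τ| ≤ 2 * η := abs_le.2 ⟨by linarith, by linarith⟩
  have hα0 : 0 ≤ α := by
    have : eG n * 1 ≤ eG n * ((j : ℝ) + 1) := mul_le_mul_of_nonneg_left (by linarith) (by linarith)
    have h : α = σ + eG n * ((j : ℝ) + 1) := by rw [hs]; ring
    rw [h]; linarith
  have hβ0 : 0 ≤ β := by
    have : eG n * 1 ≤ eG n * ((k : ℝ) + 1) := mul_le_mul_of_nonneg_left (by linarith) (by linarith)
    have h : β = τ + eG n * ((k : ℝ) + 1) := by rw [ht]; ring
    rw [h]; linarith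
  set P := p / R + σ with hP
  set Q := q + τ with hQ
  -- constraints from `A_j`, `B_k`
  have dA : 0 ≤ disc K (eYA n j) P σ := by
    obtain ⟨x, hxL, hx⟩ := hL (Sum.inl (Sum.inl ⟨j, hj⟩))
    have hx' : EL (eYA n j) K (x 0 / R - eG n * ((j : ℝ) + 1) * (x 2 / R)) (1 - x 2 / R)
      (δ * (x 1) ^ 2 / (16 * eE n ^ 2)) := hx
    have e : x 0 / R - eG n * ((j : ℝ) + 1) * (x 2 / R) = P - σ * (1 - x 2 / R) := by
      rw [(hpq x hxL).1, hP, hs]; ring
    rw [e] at hx'
    have hE := eE_pos (n := n)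
    exact pl_disc (eYA_pos j) (by linarith [eYA_le hj.le, eYA_pos (n := n) j])
      (by positivity) hx'
  have dB : 0 ≤ disc K (eYB n k) Q τ := by
    obtain ⟨x, hxL, hx⟩ := hL (Sum.inl (Sum.inr ⟨k, hk⟩))
    have hx' : EL (eYB n k) K (x 1 - eG n * ((k : ℝ) + 1) * x 2) (1 - x 2)
      (δ * (x 0) ^ 2 / (16 * R ^ 2)) := hx
    have e : x 1 - eG n * ((k : ℝ) + 1) * x 2 = Q - τ * (1 - x 2) := by
      rw [(hpq x hxL).2, hQ, ht]; ring
    rw [e] at hx'
    exact pl_disc (eYB_pos k) (by linarith [eYB_le' hk.le, eYB_pos (n := n) k])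
      (by positivity) hx'
  have hYA := eYA_ge' (n := n) j
  have hYB : 10 ≤ eYB n k := by
    have h1 := eYB_ge (n := n) k
    have h2 := ea_one (n := n)
    linarith
  have lA := pl_low hYA (eYA_le hj.le) (by linarith) dA
  have lB := pl_low hYB (eYB_le' hk.le) (by linarith) dB
  have uA := pl_up hYA (eYA_le hj.le) (by linarith) dA
  have uB := pl_up hYB (eYB_le' hk.le) (by linarith) dB
  have cube : ∀ x : ℝ, |x| ≤ 2 * η → |x| ^ 3 / (20 * K) ≤ δ / 80 := by
    intro x hx
    have h1 : |x| ^ 3 ≤ (2 * η) ^ 3 := pow_le_pow_left₀ (abs_nonneg x) hx 3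
    have h2 : (2 * η) ^ 3 = K * δ / 4 := by rw [← hη3]; ring
    rw [div_le_div_iff₀ (by linarith) (by norm_num)]
    nlinarith
  have cA : -(σ ^ 2 / (4 * K)) - δ / 80 ≤ P := by linarith [cube σ (by linarith)]
  have cB : -(τ ^ 2 / (4 * K)) - δ / 80 ≤ Q := by linarith [cube τ hτ]
  have hρ : ∀ l : ℕ, l < n → |eρ n l| ≤ η / (4 * K) := by
    intro l hl
    have h := es_bound (n := n) hl
    unfold eρ
    rw [abs_div, abs_of_pos (by linarith : 0 < 4 * eK n)]
    apply div_le_div_of_nonneg_right _ (by linarith)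
    exact (abs_lt.2 h).le
  have hηK : η / (4 * K) ≤ 1 / 8 := by
    rw [div_le_div_iff₀ (by linarith) (by norm_num)]; linarith
  -- constraint from `F_l`
  have cF : ∀ l : ℕ, l < n → (1 / 2 - eρ n l) * (P - σ) + (1 / 2 + eρ n l) * (Q - τ) ≤
      4 * K * eρ n l ^ 2 := by
    intro l hl
    obtain ⟨x, hxL, hx⟩ := hL (Sum.inr (Sum.inl ⟨l, hl⟩))
    obtain ⟨e0, e1⟩ := hpq x hxL
    have hx' : ((4 * K * eρ n l ^ 2 - ((1 / 2 - eρ n l) * (x 0 / R) + (1 / 2 + eρ n l) * x 1) -
      eD n) / eD n) ^ 2 + (x 1 / (4 * ea n)) ^ 2 + (4 * (x 2 - eζ n * ((l : ℝ) + 1)) / eζ n) ^ 2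
      ≤ 1 := hx
    have hr := (hρ l hl).trans hηK
    obtain ⟨hr1, hr2⟩ := abs_le.1 hr
    have hD0 := eD_pos (n := n)
    have hζ := eζ_pos (n := n)
    have s1 := sq_nonneg (x 1 / (4 * ea n))
    have s2 := sq_nonneg ((4 * K * eρ n l ^ 2 - ((1 / 2 - eρ n l) * (x 0 / R) +
      (1 / 2 + eρ n l) * x 1) - eD n) / eD n)
    have s3 := sq_nonneg (4 * (x 2 - eζ n * ((l : ℝ) + 1)) / eζ n)
    have t1 : |(4 * K * eρ n l ^ 2 - ((1 / 2 - eρ n l) * (x 0 / R) +
      (1 / 2 + eρ n l) * x 1) - eD n) / eD n| ≤ 1 := by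
      rw [← sq_le_one_iff_abs_le_one]; linarith
    have t2 : |4 * (x 2 - eζ n * ((l : ℝ) + 1)) / eζ n| ≤ 1 := by
      rw [← sq_le_one_iff_abs_le_one]; linarith
    have t3 := (abs_le.1 t1).1
    have t4 := (abs_le.1 t2).1
    rw [le_div_iff₀ hD0] at t3
    rw [le_div_iff₀ hζ] at t4
    have hz : 0 ≤ x 2 := by
      have : eζ n * 1 ≤ eζ n * ((l : ℝ) + 1) := by
        apply mul_le_mul_of_nonneg_left _ hζ.le
        have : (0 : ℝ) ≤ l := by positivity
        linarith
      linarith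
    rw [e0, e1] at t3
    have e2 : (p + α * x 2) / R = (P - σ) + α * x 2 / R := by rw [hP]; ring
    have e3 : q + β * x 2 = (Q - τ) + β * x 2 := by rw [hQ]; ring
    rw [e2, e3] at t3
    have h5 : 0 ≤ (1 / 2 - eρ n l) * (α * x 2 / R) :=
      mul_nonneg (by linarith) (div_nonneg (mul_nonneg hα0 hz) hR0.le)
    have h6 : 0 ≤ (1 / 2 + eρ n l) * (β * x 2) :=
      mul_nonneg (by linarith) (mul_nonneg hβ0 hz)
    nlinarith
  have hface : ∀ l : ℕ, l < n → 2 * eρ n l * σ - σ ^ 2 / (4 * K) + (-(σ + τ)) / 4 - δ / 80 ≤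
      4 * K * eρ n l ^ 2 := by
    intro l hl
    refine le_trans ?_ (cF l hl)
    exact face (by linarith) hη0 hη hδ0 hσ (by ring) (by linarith) (by linarith)
      ((hρ l hl).trans hηK) cA cB
  have hend : ∀ l : ℕ, l < n → es n l ≠ σ := by
    intro l hl h
    have h1 := hface l hl
    have h2 : 4 * K * eρ n l = σ := by rw [← h]; exact eρ_eq l
    have h3 : 2 * eρ n l * σ - σ ^ 2 / (4 * K) = 4 * K * eρ n l ^ 2 := by
      rw [← h2]; field_simp; ring
    linarith
  have sA : es n i < σ := lt_of_le_of_ne hA' (hend i hin)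
  have sB : σ < es n (i + 1) := lt_of_le_of_ne hB' (fun h => hend (i + 1) hi h.symm)
  have sC : -(2 * η) < τ := by
    rcases hC'.lt_or_eq with h | h
    · exact h
    · exfalso
      have h1 := hface i hin
      have h3 := hρ i hin
      have hK0 : 0 < K := by linarith
      have h4 : 4 * K * eρ n i ^ 2 ≤ η / 100 := by
        have e : 4 * K * eρ n i ^ 2 = es n i * eρ n i := by rw [← eρ_eq (n := n) i]; ring
        rw [e]
        have h5 : |es n i * eρ n i| ≤ η * (η / (4 * K)) := by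
          rw [abs_mul]
          exact mul_le_mul (abs_lt.2 hb1).le h3 (abs_nonneg _) hη0.le
        have h6 : η * (η / (4 * K)) ≤ η * (1 / 100) := by
          apply mul_le_mul_of_nonneg_left _ hη0.le
          rw [div_le_div_iff₀ (by linarith) (by norm_num)]; linarith
        have := le_abs_self (es n i * eρ n i)
        linarith
      have h7 : -(η / 100) ≤ 2 * eρ n i * σ := by
        have h5 : |2 * eρ n i * σ| ≤ 2 * (η / (4 * K)) * η := by
          rw [abs_mul, abs_mul, abs_of_pos (by norm_num : (0 : ℝ) < 2)]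
          exact mul_le_mul (mul_le_mul_of_nonneg_left h3 (by norm_num)) hσ (abs_nonneg _)
            (by positivity)
        have h6 : 2 * (η / (4 * K)) * η ≤ 1 / 100 * η := by
          apply mul_le_mul_of_nonneg_right _ hη0.le
          rw [mul_div_assoc', div_le_div_iff₀ (by linarith) (by norm_num)]; linarith
        have := neg_abs_le (2 * eρ n i * σ)
        linarith
      have h8 : σ ^ 2 / (4 * K) ≤ η / 100 := by
        rw [div_le_div_iff₀ (by linarith) (by norm_num)]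
        have : σ ^ 2 ≤ η ^ 2 := sq_le_sq' hσ1 hσ2
        nlinarith
      have h9 : δ ≤ η := by
        have h10 := eδ_eq n
        rw [← hKdef, ← hδdef, ← hηdef] at h10
        have h11 := ea_one (n := n)
        have h12 : 1 ≤ ea n ^ 2 := one_le_pow₀ h11
        have h13 : K * 1 * δ ≤ K * ea n ^ 2 * δ := by
          apply mul_le_mul_of_nonneg_right _ hδ0.le
          exact mul_le_mul_of_nonneg_left h12 hK0.le
        nlinarith
      linarith
  have sD : σ + τ < -δ := by
    rcases hD'.lt_or_eq with h | h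
    · exact h
    · exfalso
      have hm : j + k < M := by omega
      obtain ⟨x, hxL, hx⟩ := hL (Sum.inr (Sum.inr ⟨j + k, hm⟩))
      obtain ⟨e0, e1⟩ := hpq x hxL
      have hx' : (x 0 + x 1 - eC n (j + k) - ew n (j + k) * x 2) ^ 2 +
        (x 2 / (4 * eC n (j + k) / δ)) ^ 2 +
        (x 0 / (16 * eG n * ea n * eC n (j + k) / δ)) ^ 2 ≤ 1 := hx
      have s1 := sq_nonneg (x 2 / (4 * eC n (j + k) / δ))
      have s2 := sq_nonneg (x 0 / (16 * eG n * ea n * eC n (j + k) / δ))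
      have t1 : |x 0 + x 1 - eC n (j + k) - ew n (j + k) * x 2| ≤ 1 := by
        rw [← sq_le_one_iff_abs_le_one]; linarith
      have hsum : α + β = ew n (j + k) := by
        have h1 : α + β = (σ + τ) + eG n * (j + k + 2) := by rw [hs, ht]; ring
        rw [h1, h]; unfold ew; push_cast; rw [← hδdef]; ring
      rw [e0, e1, ← hsum] at t1
      have t2 := (abs_le.1 t1).1
      have h1 : eC n (j + k) - 1 ≤ p + q := by linarith
      have hCge := eC_ge (n := n) (j + k)
      have ha := ea_one (n := n)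
      have hYn := eYA_ge' (n := n) n
      have hYjn : eYA n j ≤ eYA n n := by
        have h3 := eYA_le hj.le
        rw [eK_eq] at h3; linarith
      have hYkn := eYB_le (n := n) hk.le n
      have hGa : 8000000 ≤ eG n * ea n := by nlinarith
      have hR1 : 1 ≤ R := by
        have : R = 16 * (eG n * ea n) := by rw [hR]; unfold eR; ring
        rw [this]; linarith
      have h7 : p ≤ R * (4 * eYA n n + 1) := by
        have : p = R * (P - σ) := by rw [hP]; field_simp; ring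
        rw [this]
        exact mul_le_mul_of_nonneg_left (by linarith) hR0.le
      have h9 : q ≤ 4 * eYA n n + 1 := by
        have : q = Q - τ := by rw [hQ]; ring
        rw [this]; linarith [(abs_le.1 hτ).1]
      exact far hR1 hGa hYn (eδ_pos (n := n)) (by linarith) rfl hCge h7 h9 h1
  -- conclude
  rw [mem_coneOp]
  simp only
  refine ⟨hv2, ?_, ?_, ?_, ?_⟩
  · rw [eα]; apply mul_lt_mul_of_pos_right _ hv2; rw [hs] at sA; linarith
  · rw [eα]; apply mul_lt_mul_of_pos_right _ hv2; rw [hs] at sB; linarith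
  · rw [eβ]; apply mul_lt_mul_of_pos_right _ hv2; rw [ht] at sC; linarith
  · rw [eα, eβ, ← add_mul]; apply mul_lt_mul_of_pos_right _ hv2; rw [hs, ht] at sD; linarith

end Pool.Agent.H44.TE
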